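import Pool.Agent.H68Cone.Criterion

/-!
A criterion for the cone conjecture which only looks at ample classes, and only modulo the classes
of the components of the boundary.

`Fin n → ℝ` is the real Neron-Severi space with its lattice of integral vectors, `Nef` the nef
cone, `Eff` the cone spanned by the classes of effective divisors (not closed up), whose interior
is the big cone, `G` the image of the automorphism group of the pair, `Δ j` are the classes of
the components of the boundary, and the dual cone of `Nef` is the closed cone of curves.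
-/

namespace Pool.Agent.H68Cone.BoundaryCriterion

open Topology Pool.Agent.H93Cone

variable {n k : ℕ}

/-- The convex cone spanned by finitely many rational vectors. -/
def cone (S : Finset (Fin n → ℚ)) : Set (Fin n → ℝ) :=
  (PointedCone.hull ℝ (ratVec '' (S : Set (Fin n → ℚ))) : PointedCone ℝ (Fin n → ℝ))

/-- `A` contains no line through the origin. -/
def Salient (A : Set (Fin n → ℝ)) : Prop := ∀ x ∈ A, -x ∈ A → x = 0

/-- The general properties of the nef cone and of the effective cone: `Nef` is a closed convex cone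
with nonempty interior, `Eff` is the convex cone spanned by a set of integral vectors, the interior of
`Nef` is contained in `Eff` and the closure of `Eff` contains no line. -/
structure NefEff (Nef Eff : PointedCone ℝ (Fin n → ℝ)) : Prop where
  closed : IsClosed (Nef : Set (Fin n → ℝ))
  ample : (interior (Nef : Set (Fin n → ℝ))).Nonempty
  spanned : ∃ D : Set (Fin n → ℤ), Eff = PointedCone.hull ℝ (intVec '' D)
  ample_effective : interior (Nef : Set (Fin n → ℝ)) ⊆ (Eff : Set (Fin n → ℝ))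
  salient : Salient (closure (Eff : Set (Fin n → ℝ)))

/-- Every element of `G` maps `A` into itself. -/
def Preserves (G : Subgroup (GL (Fin n) ℤ)) (A : PointedCone ℝ (Fin n → ℝ)) : Prop :=
  ∀ g ∈ G, ∀ x ∈ A, act g.val x ∈ A

/-- The dual cone of `A`. -/
def dual (A : Set (Fin n → ℝ)) : Set (Fin n → ℝ) := {ξ | ∀ x ∈ A, 0 ≤ ξ ⬝ᵥ x}

/-- The vector `ξ` of the convex cone `A` spans an extremal ray of `A`. -/
def IsExtremalRay (A : Set (Fin n → ℝ)) (ξ : Fin n → ℝ) : Prop :=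
  ξ ∈ A ∧ ξ ≠ 0 ∧ ∀ a ∈ A, ∀ b ∈ A, a + b = ξ → ∃ t : ℝ, 0 ≤ t ∧ a = t • ξ

/-- There is a constant `B` such that each extremal ray `ξ` of the dual cone of `Nef` with
`ξ ⬝ Δ j ≠ 0` contains an integral vector `c` with `|c ⬝ Δ j| ≤ B`. -/
def BoundedRays (Nef : PointedCone ℝ (Fin n → ℝ)) (Δ : Fin k → Fin n → ℚ) : Prop :=
  ∃ B : ℝ, ∀ ξ, IsExtremalRay (dual (Nef : Set (Fin n → ℝ))) ξ → ∀ j, ξ ⬝ᵥ ratVec (Δ j) ≠ 0 →
    ∃ (c : Fin n → ℤ) (t : ℝ), 0 < t ∧ intVec c = t • ξ ∧ |intVec c ⬝ᵥ ratVec (Δ j)| ≤ B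

/-- The vectors which lie in `A` after adding a nonnegative multiple of the sum of all `Δ j`. -/
def Modulo (A : Set (Fin n → ℝ)) (Δ : Fin k → Fin n → ℚ) : Set (Fin n → ℝ) :=
  {x | ∃ t : ℝ, 0 ≤ t ∧ x + t • ∑ j, ratVec (Δ j) ∈ A}

/-- Near each point of `U` the set `A` is given by finitely many rational linear inequalities. -/
def LocallyRationalPolyhedral (A U : Set (Fin n → ℝ)) : Prop :=
  ∀ x ∈ A ∩ U, ∃ L : Finset (Fin n → ℚ), ∀ᶠ y in 𝓝 x, y ∈ A ↔ ∀ l ∈ L, 0 ≤ ratVec l ⬝ᵥ y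

/-- The space spanned by the `Δ j`. -/
def F (Δ : Fin k → Fin n → ℚ) : Submodule ℝ (Fin n → ℝ) :=
  Submodule.span ℝ (Set.range fun j => ratVec (Δ j))

/-- `G` acts on `A` with a rational polyhedral fundamental domain contained in `A`. -/
def HasDomain (G : Subgroup (GL (Fin n) ℤ)) (A : Set (Fin n → ℝ)) : Prop :=
  ∃ S : Finset (Fin n → ℚ), cone S ⊆ A ∧ A = ⋃ g ∈ G, act g.val '' cone S ∧
    ∀ g ∈ G, g ≠ 1 → interior (cone S) ∩ interior (act g.val '' cone S) = ∅

theorem result {n k : ℕ} (Nef Eff : PointedCone ℝ (Fin n → ℝ)) (hcones : NefEff Nef Eff)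
    (G : Subgroup (GL (Fin n) ℤ)) (hGNef : Preserves G Nef) (hGEff : Preserves G Eff)
    (Δ : Fin k → Fin n → ℚ) (hΔ : ∀ j, ratVec (Δ j) ∈ Eff) (hrays : BoundedRays Nef Δ)
    (hlocal : LocallyRationalPolyhedral (Nef : Set (Fin n → ℝ))
      (Modulo (interior (Eff : Set (Fin n → ℝ))) Δ)) :
    HasDomain G ((Nef : Set (Fin n → ℝ)) ∩ (Eff : Set (Fin n → ℝ))) ↔
      (∀ v : Fin n → ℚ, ratVec v ∈ Nef → ratVec v ∈ Modulo (Eff : Set (Fin n → ℝ)) Δ →
        ratVec v ∈ Eff) ∧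
      ∃ (K : Set (Fin n → ℝ)) (S : Finset (Fin n → ℚ)), IsCompact K ∧
        K ⊆ (Nef : Set (Fin n → ℝ)) ∩ Modulo (interior (Eff : Set (Fin n → ℝ))) Δ ∧
        cone S ⊆ (Nef : Set (Fin n → ℝ)) ∩ (Eff : Set (Fin n → ℝ)) ∧
        ∀ x ∈ interior (Nef : Set (Fin n → ℝ)), ∃ g ∈ G,
          (∃ t : ℝ, 0 < t ∧ ∃ y ∈ K, act g.val (t • x) - y ∈ F Δ) ∨
            ∃ y ∈ cone S, act g.val x - y ∈ F Δ := by
  obtain ⟨hNef, hample, ⟨D, hEff⟩, hampleEff, hsal⟩ := hcones
  have h := Pool.Agent.H68Cone.criterion Nef Eff D hNef hample hEff hampleEff hsal G hGNef hGEff Δ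
    hΔ hrays hlocal
  have e : (∀ v : Fin n → ℚ, ratVec v ∈ Nef → ratVec v ∈ Modulo (Eff : Set (Fin n → ℝ)) Δ →
        ratVec v ∈ Eff) ↔ (∀ v : Fin n → ℚ, ratVec v ∈ Nef → ∀ t : ℝ, 0 ≤ t →
        ratVec v + t • ∑ j, ratVec (Δ j) ∈ Eff → ratVec v ∈ Eff) :=
    ⟨fun h v hv t ht htv => h v hv ⟨t, ht, htv⟩, fun h v hv ⟨t, ht, htv⟩ => h v hv t ht htv⟩
  rw [e]
  exact h

end Pool.Agent.H68Cone.BoundaryCriterion
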