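import Pool.Agent.H68Cone.Image
import Pool.Agent.H31Cone.Main

/-!
Cocompactness modulo the boundary classes for free abelian groups of maximal rank.
-/

set_option autoImplicit false

namespace Pool.Agent.H68Cone

open Module Filter Topology Pool.Agent.H93Cone Pool.Agent.H55.Cone Pool.Agent.H31Cone

variable {n r : ℕ}

lemma rmap_mul {a b c : ℕ} (P : Matrix (Fin a) (Fin b) ℤ) (Q : Matrix (Fin b) (Fin c) ℤ)
    (x : Fin c → ℝ) : rmap (P * Q) x = rmap P (rmap Q x) := by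
  show ((P * Q).map (Int.cast : ℤ → ℝ)).mulVec x =
    (P.map (Int.cast : ℤ → ℝ)).mulVec ((Q.map (Int.cast : ℤ → ℝ)).mulVec x)
  rw [Matrix.mulVec_mulVec]
  congr 1
  exact Matrix.map_mul (L := P) (M := Q) (f := Int.castRingHom ℝ)

/-- The representation on the quotient by a rational subspace of fixed vectors. -/
lemma quot_rep {φ : (Fin r → ℤ) → Matrix (Fin n) (Fin n) ℤ} (h : IsRep φ)
    (hinj : Function.Injective φ) (K : PointedCone ℝ (Fin n → ℝ))
    (hcl : IsClosed (K : Set (Fin n → ℝ))) (hsal : ∀ x, x ∈ K → -x ∈ K → x = 0)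
    (hint : (interior (K : Set (Fin n → ℝ))).Nonempty)
    (hφ : ∀ z, ∀ x ∈ K, act (φ z) x ∈ K)
    (W : Submodule ℚ (Fin n → ℚ)) (hW : ∀ z, ∀ w ∈ W, qa (φ z) w = w) :
    ∃ (m : ℕ) (P : Matrix (Fin m) (Fin n) ℤ) (ψ : (Fin r → ℤ) → Matrix (Fin m) (Fin m) ℤ),
      m + finrank ℚ W = n ∧ (∀ v : Fin n → ℚ, qmap P v = 0 ↔ v ∈ W) ∧
      (∀ x : Fin n → ℝ, rmap P x = 0 ↔ x ∈ rspan W) ∧
      Function.Surjective (rmap P) ∧ IsRep ψ ∧ Function.Injective ψ ∧
      ∀ z x, rmap P (act (φ z) x) = act (ψ z) (rmap P x) := by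
  classical
  obtain ⟨m, P, hm, hker, hkerR, _, hsurj, hg, huniq⟩ := exists_quot_real W
  choose ψ hψ using fun z => hg (φ z) (fun w hw => by rw [hW z w hw]; exact hw)
  have hrep : IsRep ψ := by
    constructor
    · apply huniq
      rw [← hψ, h.zero, Matrix.mul_one, Matrix.one_mul]
    · intro z w
      apply huniq
      rw [← hψ, h.add, ← Matrix.mul_assoc, hψ, Matrix.mul_assoc, hψ, Matrix.mul_assoc]
  have hcomm : ∀ z x, rmap P (act (φ z) x) = act (ψ z) (rmap P x) := by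
    intro z x
    have h1 : act (φ z) x = rmap (φ z) x := rfl
    have h2 : act (ψ z) (rmap P x) = rmap (ψ z) (rmap P x) := rfl
    rw [h1, h2, ← rmap_mul, ← rmap_mul, hψ]
  obtain ⟨x, hx⟩ := exists_rat_point isOpen_interior hint
  refine ⟨m, P, ψ, hm, hker, hkerR, hsurj, hrep, ?_, hcomm⟩
  intro z z' hzz
  have hd : ψ (z - z') = 1 := by
    have h1 : ψ (-z') * ψ z' = 1 := by
      rw [← hrep.add, neg_add_cancel, hrep.zero]
    have h2 : ψ (z - z') = ψ (-z') * ψ z := by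
      rw [← hrep.add]; congr 1; abel
    rw [h2, hzz, h1]
  have h1 : qmap P (Nq φ (z - z') x) = 0 := by
    have h2 : rmap P (act (φ (z - z')) (ratVec x)) = rmap P (ratVec x) := by
      rw [hcomm, hd, act_one]; rfl
    have h3 : ratVec (qmap P (Nq φ (z - z') x)) = 0 := by
      rw [← ratVec_qmap, Nq_apply, ratVec_sub, ratVec_qa, map_sub, h2, sub_self]
    apply ratVec_injective
    rw [h3]
    funext i
    simp [ratVec]
  have h2 := (hker _).1 h1
  have h3 : Nq φ (z - z') (Nq φ (z - z') x) = 0 := by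
    rw [Nq_apply (v := Nq φ (z - z') x), hW _ _ h2, sub_self]
  have h4 := no_square h hinj K hcl hsal hφ x hx _ h3
  exact sub_eq_zero.1 h4

/-- Rank equal to the dimension minus one. -/
lemma cover_simplicial {m : ℕ} (hm : 2 ≤ m) (hr : r + 1 = m)
    {ψ : (Fin r → ℤ) → Matrix (Fin m) (Fin m) ℤ} (h : IsRep ψ)
    (hinj : Function.Injective ψ) (K : PointedCone ℝ (Fin m → ℝ))
    (hcl : IsClosed (K : Set (Fin m → ℝ))) (hsal : ∀ x, x ∈ K → -x ∈ K → x = 0)
    (hint : (interior (K : Set (Fin m → ℝ))).Nonempty)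
    (hψ : ∀ z, ∀ x ∈ K, act (ψ z) x ∈ K) :
    ∃ S : Finset (Fin m → ℚ), (∀ v ∈ S, ratVec v ∈ interior (K : Set (Fin m → ℝ))) ∧
      ∀ x ∈ interior (K : Set (Fin m → ℝ)), ∃ z, ∃ y ∈ ratCone S, act (ψ z) y = x := by
  classical
  let A : Subgroup (GL (Fin m) ℤ) :=
    { carrier := {g | ∃ z, g.val = ψ z}
      one_mem' := ⟨0, by rw [h.zero]; rfl⟩
      mul_mem' := by
        rintro a b ⟨z, hz⟩ ⟨w, hw⟩
        exact ⟨z + w, by rw [h.add, ← hz, ← hw]; rfl⟩
      inv_mem' := by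
        rintro a ⟨z, hz⟩
        refine ⟨-z, ?_⟩
        have h1 : ψ (-z) * a.val = 1 := by rw [hz, ← h.add, neg_add_cancel, h.zero]
        have h2 : (a⁻¹ : GL (Fin m) ℤ).val = ψ (-z) * a.val * (a⁻¹ : GL (Fin m) ℤ).val := by
          rw [h1, one_mul]
        rw [h2, mul_assoc, ← Units.val_mul, mul_inv_cancel, Units.val_one, mul_one] }
  have hA : ∀ γ ∈ A, ∀ x ∈ K, act γ.val x ∈ K := by
    rintro γ ⟨z, hz⟩ x hx
    rw [hz]; exact hψ z x hx
  have hmemA : ∀ z, ∃ γ ∈ A, (γ : GL (Fin m) ℤ).val = ψ z := by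
    intro z
    refine ⟨⟨ψ z, ψ (-z), h.mul_neg z, ?_⟩, ⟨z, rfl⟩, rfl⟩
    rw [← h.add, neg_add_cancel, h.zero]
  obtain ⟨x, hx⟩ := exists_rat_point isOpen_interior hint
  obtain ⟨ξ, hξ1, hξ2⟩ := weights_main hr hm h x
    (fun z hz => no_square h hinj K hcl hsal hψ x hx z hz)
  have hD : Dominated (mats A) ξ := by
    refine ⟨hξ1, fun i => ?_⟩
    obtain ⟨z, τ, h1, h2, h3, h4⟩ := hξ2 i
    obtain ⟨γ, hγ, hγz⟩ := hmemA z
    exact ⟨ψ z, ⟨γ, hγ, hγz⟩, τ, h1, h2, h3, h4⟩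
  have hAm : ∀ g ∈ mats A, ∀ x ∈ K, act g x ∈ K := by
    rintro _ ⟨γ, hγ, rfl⟩ x hx
    exact hA γ hγ x hx
  obtain ⟨ζ, hDζ, hζ⟩ := exists_orthant hD K hcl hsal hint hAm
  obtain ⟨S, hS1, hS2, _⟩ := dirichlet K hcl hsal hint A hA ζ hDζ hζ
  refine ⟨S.filter (fun v => ratVec v ≠ 0), fun v hv => ?_, fun x hx => ?_⟩
  · obtain ⟨h1, h2⟩ := Finset.mem_filter.1 hv
    exact (hS1 (ratVec v) (Submodule.subset_span ⟨v, h1, rfl⟩)).resolve_left h2
  · obtain ⟨γ, ⟨z, hz⟩, y, hy, rfl⟩ := hS2 x hx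
    refine ⟨z, y, ?_, by rw [hz]⟩
    have h1 : PointedCone.hull ℝ (ratVec '' (S : Set (Fin m → ℚ))) ≤
        PointedCone.hull ℝ (ratVec '' ((S.filter (fun v => ratVec v ≠ 0) : Finset (Fin m → ℚ)) :
          Set (Fin m → ℚ))) := by
      refine Submodule.span_le.2 ?_
      rintro _ ⟨v, hv, rfl⟩
      by_cases hv0 : ratVec v = 0
      · rw [hv0]; exact Submodule.zero_mem _
      · exact Submodule.subset_span ⟨v, Finset.mem_coe.2 (Finset.mem_filter.2 ⟨hv, hv0⟩), rfl⟩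
    exact h1 hy

/-- From a covering of the image modulo a vector of `rspan W` to a covering modulo `rspan W`. -/
lemma lift_hull {m : ℕ} (P : (Fin n → ℝ) →ₗ[ℝ] (Fin m → ℝ)) (S : Finset (Fin n → ℚ))
    (S' : Finset (Fin m → ℚ)) (h : ∀ v ∈ S', ∃ x ∈ ratCone S, P x = ratVec v) :
    ∀ y ∈ ratCone S', ∃ x ∈ ratCone S, P x = y := by
  intro y hy
  unfold ratCone at hy
  induction hy using Submodule.span_induction with
  | mem y hy =>
    obtain ⟨v, hv, rfl⟩ := hy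
    exact h v (Finset.mem_coe.1 hv)
  | zero => exact ⟨0, Submodule.zero_mem _, map_zero _⟩
  | add y z _ _ hy hz =>
    obtain ⟨a, ha, rfl⟩ := hy
    obtain ⟨b, hb, rfl⟩ := hz
    exact ⟨a + b, Submodule.add_mem _ ha hb, map_add _ _ _⟩
  | smul a y _ hy =>
    obtain ⟨b, hb, rfl⟩ := hy
    exact ⟨(a : ℝ) • b, PointedCone.smul_mem _ a.2 hb, by rw [map_smul]; rfl⟩

lemma rspan_mono {W W' : Submodule ℚ (Fin n → ℚ)} (h : W ≤ W') : rspan W ≤ rspan W' :=
  Submodule.span_mono (Set.image_mono h)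

/-- Case B: no nonzero class of the cone lies in the span of `W`. -/
theorem cover_B (hr1 : 1 ≤ r) {φ : (Fin r → ℤ) → Matrix (Fin n) (Fin n) ℤ} (h : IsRep φ)
    (hinj : Function.Injective φ) (K : PointedCone ℝ (Fin n → ℝ))
    (hcl : IsClosed (K : Set (Fin n → ℝ))) (hsal : ∀ x, x ∈ K → -x ∈ K → x = 0)
    (hint : (interior (K : Set (Fin n → ℝ))).Nonempty)
    (hφ : ∀ z, ∀ x ∈ K, act (φ z) x ∈ K)
    (W : Submodule ℚ (Fin n → ℚ)) (hW : ∀ z, ∀ w ∈ W, qa (φ z) w = w)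
    (hr : r + 1 + finrank ℚ W = n) (hKW : ∀ x ∈ K, x ∈ rspan W → x = 0) :
    ∃ S : Finset (Fin n → ℚ), (∀ v ∈ S, ratVec v ∈ interior (K : Set (Fin n → ℝ))) ∧
      ∀ x ∈ interior (K : Set (Fin n → ℝ)), ∃ z, ∃ y ∈ ratCone S,
        act (φ z) x - y ∈ rspan W := by
  classical
  obtain ⟨m, P, ψ, hm, hker, hkerR, hsurj, hrep, hψinj, hcomm⟩ :=
    quot_rep h hinj K hcl hsal hint hφ W hW
  have hkerK : ∀ x ∈ K, rmap P x = 0 → x = 0 := fun x hx h0 => hKW x hx ((hkerR x).1 h0)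
  set K' := PointedCone.map (rmap P) K with hK'
  have hint' := map_interior (rmap P) hsurj K hint
  have hψK : ∀ z, ∀ y ∈ K', act (ψ z) y ∈ K' := by
    intro z y hy
    obtain ⟨x, hx, rfl⟩ := (mem_map' _ K y).1 hy
    rw [← hcomm]
    exact (mem_map' _ K _).2 ⟨_, hφ z x hx, rfl⟩
  obtain ⟨S', hS1, hS2⟩ := cover_simplicial (show 2 ≤ m by omega) (show r + 1 = m by omega) hrep
    hψinj K' (map_closed _ K hcl hkerK) (map_salient _ K hsal hkerK)
    (by rw [hint']; exact hint.image _) hψK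
  obtain ⟨S, hS3, hS4⟩ := lift_compact (rmap P) hsurj K (ratVec '' (S' : Set (Fin m → ℚ)))
    ((S'.finite_toSet.image _).isCompact) (by
      rintro _ ⟨v, hv, rfl⟩
      rw [← hint']
      exact hS1 v (Finset.mem_coe.1 hv))
  refine ⟨S, hS3, fun x hx => ?_⟩
  obtain ⟨z, y, hy, hyx⟩ := hS2 (rmap P x) (by rw [hint']; exact ⟨x, hx, rfl⟩)
  obtain ⟨x', hx', hxy⟩ := lift_hull (rmap P) S S'
    (fun v hv => hS4 _ ⟨v, Finset.mem_coe.2 hv, rfl⟩) y hy
  refine ⟨-z, x', hx', (hkerR _).1 ?_⟩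
  have h1 : act (ψ (-z)) (act (ψ z) y) = y := by
    rw [← act_mul_apply, ← hrep.add, neg_add_cancel, hrep.zero, act_one]; rfl
  rw [map_sub, hcomm, ← hyx, h1, hxy, sub_self]

/-- Case C: some nonzero class of the cone lies in the span of `W`. -/
theorem cover_C (hr1 : 1 ≤ r) {φ : (Fin r → ℤ) → Matrix (Fin n) (Fin n) ℤ} (h : IsRep φ)
    (hinj : Function.Injective φ) (K : PointedCone ℝ (Fin n → ℝ))
    (hcl : IsClosed (K : Set (Fin n → ℝ))) (hsal : ∀ x, x ∈ K → -x ∈ K → x = 0)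
    (hint : (interior (K : Set (Fin n → ℝ))).Nonempty)
    (hφ : ∀ z, ∀ x ∈ K, act (φ z) x ∈ K)
    (W : Submodule ℚ (Fin n → ℚ)) (hW : ∀ z, ∀ w ∈ W, qa (φ z) w = w)
    (hr : r + 1 + finrank ℚ W = n) (f : Fin n → ℝ) (hf : f ∈ K) (hfW : f ∈ rspan W)
    (hf0 : f ≠ 0) :
    ∃ S : Finset (Fin n → ℚ), (∀ v ∈ S, ratVec v ∈ interior (K : Set (Fin n → ℝ))) ∧
      ∀ x ∈ interior (K : Set (Fin n → ℝ)), ∃ z, ∃ y ∈ ratCone S,
        act (φ z) x - y ∈ rspan W := by
  classical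
  obtain ⟨q, c, hc, hq⟩ := exists_pos_rat K hcl hsal
  have hqf : 0 < ratVec q ⬝ᵥ f := lt_of_lt_of_le (mul_pos hc (norm_pos_iff.2 hf0)) (hq f hf)
  -- a rational vector of `W` on which `q` is positive
  obtain ⟨e, heW, hqe⟩ : ∃ e ∈ W, 0 < q ⬝ᵥ e := by
    by_contra hcon
    push Not at hcon
    have h1 : ∀ e ∈ W, q ⬝ᵥ e = 0 := by
      intro e he
      refine le_antisymm (hcon e he) ?_
      have h2 := hcon (-e) (W.neg_mem he)
      rw [dotProduct_neg] at h2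
      linarith
    have h2 : rspan W ≤ LinearMap.ker ({ toFun := fun x => ratVec q ⬝ᵥ x
                                         map_add' := fun a b => dotProduct_add _ a b
                                         map_smul' := fun a b => dotProduct_smul a _ b } :
        (Fin n → ℝ) →ₗ[ℝ] ℝ) := by
      refine Submodule.span_le.2 ?_
      rintro _ ⟨w, hw, rfl⟩
      show ratVec q ⬝ᵥ ratVec w = 0
      rw [ratVec_dot, h1 w hw, Rat.cast_zero]
    have h3 : ratVec q ⬝ᵥ f = 0 := h2 hfW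
    exact hqf.ne' h3
  -- the hyperplane
  let qf : (Fin n → ℚ) →ₗ[ℚ] ℚ :=
    { toFun := fun x => q ⬝ᵥ x
      map_add' := fun a b => dotProduct_add _ a b
      map_smul' := fun a b => dotProduct_smul a _ b }
  let W' : Submodule ℚ (Fin n → ℚ) := W ⊓ LinearMap.ker qf
  have hW'W : W' ≤ W := inf_le_left
  have hfin : finrank ℚ W' + 1 = finrank ℚ W := by
    have h1 := LinearMap.finrank_range_add_finrank_ker (qf.domRestrict W)
    have h2 : LinearMap.range (qf.domRestrict W) = ⊤ := by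
      rw [eq_top_iff]
      intro t _
      refine ⟨(t / (q ⬝ᵥ e)) • ⟨e, heW⟩, ?_⟩
      rw [map_smul]
      show (t / (q ⬝ᵥ e)) * (q ⬝ᵥ e) = t
      exact div_mul_cancel₀ _ hqe.ne'
    have h3 : finrank ℚ (LinearMap.ker (qf.domRestrict W)) = finrank ℚ W' := by
      have e1 : W' = (LinearMap.ker (qf.domRestrict W)).map W.subtype := by
        ext v
        simp only [W', Submodule.mem_inf, LinearMap.mem_ker, Submodule.mem_map]
        constructor
        · rintro ⟨h1, h2⟩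
          exact ⟨⟨v, h1⟩, h2, rfl⟩
        · rintro ⟨w, h1, rfl⟩
          exact ⟨w.2, h1⟩
      rw [e1]
      exact (Submodule.finrank_map_subtype_eq _ _).symm
    rw [h2, finrank_top, finrank_self, h3] at h1
    omega
  have hW' : ∀ z, ∀ w ∈ W', qa (φ z) w = w := fun z w hw => hW z w (hW'W hw)
  have hqW' : ∀ x ∈ rspan W', ratVec q ⬝ᵥ x = 0 := by
    intro x hx
    have h2 : rspan W' ≤ LinearMap.ker ({ toFun := fun x => ratVec q ⬝ᵥ x
                                          map_add' := fun a b => dotProduct_add _ a b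
                                          map_smul' := fun a b => dotProduct_smul a _ b } :
        (Fin n → ℝ) →ₗ[ℝ] ℝ) := by
      refine Submodule.span_le.2 ?_
      rintro _ ⟨w, hw, rfl⟩
      show ratVec q ⬝ᵥ ratVec w = 0
      have h3 : q ⬝ᵥ w = 0 := hw.2
      rw [ratVec_dot, h3, Rat.cast_zero]
    exact h2 hx
  have hKW' : ∀ x ∈ K, x ∈ rspan W' → x = 0 := by
    intro x hx hxW
    have h1 := hq x hx
    rw [hqW' x hxW] at h1
    have h2 : ‖x‖ ≤ 0 := by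
      by_contra h3
      push Not at h3
      linarith [mul_pos hc h3]
    exact norm_le_zero_iff.1 h2
  obtain ⟨m, P, ψ, hm, hker, hkerR, hsurj, hrep, hψinj, hcomm⟩ :=
    quot_rep h hinj K hcl hsal hint hφ W' hW'
  have hkerK : ∀ x ∈ K, rmap P x = 0 → x = 0 := fun x hx h0 => hKW' x hx ((hkerR x).1 h0)
  set K' := PointedCone.map (rmap P) K with hK'
  have hint' := map_interior (rmap P) hsurj K hint
  have hψK : ∀ z, ∀ y ∈ K', act (ψ z) y ∈ K' := by
    intro z y hy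
    obtain ⟨x, hx, rfl⟩ := (mem_map' _ K y).1 hy
    rw [← hcomm]
    exact (mem_map' _ K _).2 ⟨_, hφ z x hx, rfl⟩
  set e' := qmap P e with he'
  have hPe : rmap P (ratVec e) = ratVec e' := ratVec_qmap P e
  have he'0 : e' ≠ 0 := by
    intro h0
    have h1 := (hker e).1 h0
    have h2 : q ⬝ᵥ e = 0 := h1.2
    exact hqe.ne' h2
  have hfix : ∀ z, act (ψ z) (ratVec e') = ratVec e' := by
    intro z
    rw [← hPe, ← hcomm, ← ratVec_qa, hW z e heW]
  have he'K : ratVec e' ∈ K' := by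
    have h1 : rspan W ≤ rspan W' ⊔ Submodule.span ℝ {ratVec e} := by
      refine Submodule.span_le.2 ?_
      rintro _ ⟨w, hw, rfl⟩
      have h2 : w - (q ⬝ᵥ w / q ⬝ᵥ e) • e ∈ W' := by
        refine ⟨W.sub_mem hw (W.smul_mem _ heW), ?_⟩
        show q ⬝ᵥ (w - (q ⬝ᵥ w / q ⬝ᵥ e) • e) = 0
        rw [dotProduct_sub, dotProduct_smul, smul_eq_mul, div_mul_cancel₀ _ hqe.ne', sub_self]
      have h3 : ratVec w = ratVec (w - (q ⬝ᵥ w / q ⬝ᵥ e) • e) +
          ((q ⬝ᵥ w / q ⬝ᵥ e : ℚ) : ℝ) • ratVec e := by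
        rw [← ratVec_smul, ← ratVec_add, sub_add_cancel]
      show ratVec w ∈ rspan W' ⊔ Submodule.span ℝ {ratVec e}
      rw [h3]
      exact Submodule.add_mem _ (Submodule.mem_sup_left (Submodule.subset_span ⟨_, h2, rfl⟩))
        (Submodule.mem_sup_right (Submodule.smul_mem _ _ (Submodule.mem_span_singleton_self _)))
    obtain ⟨g, hg, u, hu, hgu⟩ := Submodule.mem_sup.1 (h1 hfW)
    obtain ⟨μ, rfl⟩ := Submodule.mem_span_singleton.1 hu
    have h2 : ratVec q ⬝ᵥ f = μ * ((q ⬝ᵥ e : ℚ) : ℝ) := by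
      rw [← hgu, dotProduct_add, hqW' g hg, zero_add, dotProduct_smul, ratVec_dot, smul_eq_mul]
    have hqe' : (0 : ℝ) < ((q ⬝ᵥ e : ℚ) : ℝ) := by exact_mod_cast hqe
    have hμ : 0 < μ := by
      rw [h2] at hqf
      exact (pos_iff_pos_of_mul_pos hqf).2 hqe'
    have h3 : rmap P f = μ • ratVec e' := by
      rw [← hgu, map_add, (hkerR g).2 hg, zero_add, map_smul, hPe]
    refine (mem_map' _ K _).2 ⟨μ⁻¹ • f, PointedCone.smul_mem _ (inv_nonneg.2 hμ.le) hf, ?_⟩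
    rw [map_smul, h3, smul_smul, inv_mul_cancel₀ hμ.ne', one_smul]
  obtain ⟨C, hC, hCK, hCt, hcov⟩ := covered (show r + 2 = m by omega) hr1 hrep hψinj K'
    (map_closed _ K hcl hkerK) (map_salient _ K hsal hkerK)
    (by rw [hint']; exact hint.image _) hψK e' he'0 he'K hfix
  -- a uniform translate
  obtain ⟨T, hT0, hT⟩ : ∃ T : ℝ, 0 ≤ T ∧ ∀ y ∈ C, y + T • ratVec e' ∈
      interior (K' : Set (Fin m → ℝ)) := by
    refine hC.induction_on (p := fun C => ∃ T : ℝ, 0 ≤ T ∧ ∀ y ∈ C, y + T • ratVec e' ∈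
      interior (K' : Set (Fin m → ℝ))) ?_ ?_ ?_ ?_
    · exact ⟨0, le_rfl, by simp⟩
    · rintro s t hst ⟨T, h1, h2⟩
      exact ⟨T, h1, fun y hy => h2 y (hst hy)⟩
    · rintro s t ⟨T, h1, h2⟩ ⟨T', h3, h4⟩
      refine ⟨T + T', add_nonneg h1 h3, ?_⟩
      rintro y (hy | hy)
      · have e1 : y + (T + T') • ratVec e' = (y + T • ratVec e') + T' • ratVec e' := by
          rw [add_smul]; abel
        rw [e1]
        exact add_mem_interior K' (h2 y hy) (PointedCone.smul_mem _ h3 he'K)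
      · have e1 : y + (T + T') • ratVec e' = (y + T' • ratVec e') + T • ratVec e' := by
          rw [add_smul]; abel
        rw [e1]
        exact add_mem_interior K' (h4 y hy) (PointedCone.smul_mem _ h1 he'K)
    · intro y hy
      obtain ⟨t, ht, hyt⟩ := hCt y hy
      refine ⟨(fun y : Fin m → ℝ => y + t • ratVec e') ⁻¹' interior (K' : Set (Fin m → ℝ)),
        mem_nhdsWithin_of_mem_nhds ?_, t, ht, fun y hy => hy⟩
      have hcont : Continuous (fun y : Fin m → ℝ => y + t • ratVec e') := by fun_prop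
      exact (isOpen_interior.preimage hcont).mem_nhds hyt
  obtain ⟨S, hS1, hS2⟩ := lift_compact (rmap P) hsurj K
    ((fun y : Fin m → ℝ => y + T • ratVec e') '' C) (hC.image (by fun_prop)) (by
      rintro _ ⟨y, hy, rfl⟩
      rw [← hint']
      exact hT y hy)
  refine ⟨S, hS1, fun x hx => ?_⟩
  obtain ⟨g, ⟨z, rfl⟩, a, ha, t, ht, w, hw, hgx⟩ :=
    hcov (rmap P x) (by rw [hint']; exact ⟨x, hx, rfl⟩)
  obtain ⟨y, hy, hyw⟩ := hS2 _ ⟨w, hw, rfl⟩
  simp only at hyw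
  refine ⟨z, a • y, PointedCone.smul_mem _ ha.le hy, ?_⟩
  have h1 : rmap P (act (φ z) x - a • y - (t - a * T) • ratVec e) = 0 := by
    rw [map_sub, map_sub, hcomm, hgx, map_smul, map_smul, hyw, hPe]
    module
  have h2 : act (φ z) x - a • y = (act (φ z) x - a • y - (t - a * T) • ratVec e) +
      (t - a * T) • ratVec e := by abel
  rw [h2]
  exact Submodule.add_mem _ (rspan_mono hW'W ((hkerR _).1 h1))
    (Submodule.smul_mem _ _ (Submodule.subset_span ⟨e, heW, rfl⟩))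

end Pool.Agent.H68Cone
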