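import Pool.Agent.H68Cone.Cover

/-!
Cocompactness modulo the boundary classes: all cases, and boundary classes which are permuted.
-/

set_option autoImplicit false

namespace Pool.Agent.H68Cone

open Module Filter Topology Pool.Agent.H93Cone Pool.Agent.H55.Cone Pool.Agent.H31Cone

variable {n r k : ℕ}

/-- Case A: the span of `W` has codimension at most one. -/
theorem cover_A (K : PointedCone ℝ (Fin n → ℝ)) (W : Submodule ℚ (Fin n → ℚ))
    (hr : n ≤ finrank ℚ W + 1) :
    ∃ S : Finset (Fin n → ℚ), (∀ v ∈ S, ratVec v ∈ interior (K : Set (Fin n → ℝ))) ∧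
      ∀ x ∈ interior (K : Set (Fin n → ℝ)), ∃ y ∈ ratCone S, x - y ∈ rspan W := by
  classical
  obtain ⟨m, P, hm, hker, hkerR, _, hsurj, _, _⟩ := exists_quot_real W
  have hm1 : m ≤ 1 := by omega
  -- the unique coordinate
  let ℓ : (Fin n → ℝ) →ₗ[ℝ] ℝ := ∑ i : Fin m, (LinearMap.proj i).comp (rmap P)
  have hℓ : ∀ x, ℓ x = 0 → x ∈ rspan W := by
    intro x hx
    rw [← hkerR]
    funext i
    have h1 : ℓ x = ∑ i : Fin m, rmap P x i := by
      simp [ℓ, LinearMap.sum_apply]
    rw [h1] at hx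
    have h2 : ∑ i : Fin m, rmap P x i = rmap P x i := by
      refine Finset.sum_eq_single i (fun j _ hj => ?_) (fun h => absurd (Finset.mem_univ _) h)
      exfalso
      apply hj
      apply Fin.ext
      omega
    rw [h2] at hx
    exact hx
  have hcont : Continuous ℓ := LinearMap.continuous_of_finiteDimensional ℓ
  have hkey : ∀ s : ℝ, s ≠ 0 → ∃ S : Finset (Fin n → ℚ),
      (∀ v ∈ S, ratVec v ∈ interior (K : Set (Fin n → ℝ))) ∧
      ∀ x ∈ interior (K : Set (Fin n → ℝ)), 0 < s * ℓ x →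
        ∃ y ∈ ratCone S, x - y ∈ rspan W := by
    intro s hs
    by_cases hne : (interior (K : Set (Fin n → ℝ)) ∩ {x | 0 < s * ℓ x}).Nonempty
    · have hopen : IsOpen (interior (K : Set (Fin n → ℝ)) ∩ {x | 0 < s * ℓ x}) :=
        isOpen_interior.inter (isOpen_lt continuous_const (continuous_const.mul hcont))
      obtain ⟨v, hv1, hv2⟩ := exists_rat_point hopen hne
      have hv2' : 0 < s * ℓ (ratVec v) := hv2
      refine ⟨{v}, fun w hw => by rw [Finset.mem_singleton.1 hw]; exact hv1, fun x hx hxs => ?_⟩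
      have hpos : 0 < ℓ x / ℓ (ratVec v) := by
        have h1 : ℓ x / ℓ (ratVec v) = (s * ℓ x) / (s * ℓ (ratVec v)) :=
          (mul_div_mul_left _ _ hs).symm
        rw [h1]
        exact div_pos hxs hv2'
      have hne0 : ℓ (ratVec v) ≠ 0 := by
        intro h0
        rw [h0, mul_zero] at hv2'
        exact lt_irrefl _ hv2'
      refine ⟨(ℓ x / ℓ (ratVec v)) • ratVec v, PointedCone.smul_mem _ hpos.le
        (Submodule.subset_span ⟨v, by simp, rfl⟩), hℓ _ ?_⟩
      rw [map_sub, map_smul, smul_eq_mul, div_mul_cancel₀ _ hne0, sub_self]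
    · refine ⟨∅, by simp, fun x hx hxs => absurd ⟨x, hx, hxs⟩ hne⟩
  obtain ⟨S₁, h1, h2⟩ := hkey 1 one_ne_zero
  obtain ⟨S₂, h3, h4⟩ := hkey (-1) (by norm_num)
  refine ⟨S₁ ∪ S₂, fun v hv => ?_, fun x hx => ?_⟩
  · rcases Finset.mem_union.1 hv with h | h
    · exact h1 v h
    · exact h3 v h
  · rcases lt_trichotomy (ℓ x) 0 with h | h | h
    · obtain ⟨y, hy, hxy⟩ := h4 x hx (by linarith)
      refine ⟨y, Submodule.span_mono (Set.image_mono ?_) hy, hxy⟩
      exact Finset.coe_subset.2 Finset.subset_union_right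
    · exact ⟨0, Submodule.zero_mem _, by rw [sub_zero]; exact hℓ x h⟩
    · obtain ⟨y, hy, hxy⟩ := h2 x hx (by linarith)
      refine ⟨y, Submodule.span_mono (Set.image_mono ?_) hy, hxy⟩
      exact Finset.coe_subset.2 Finset.subset_union_left

/-- All cases, for a group fixing the rational subspace `W` pointwise. -/
theorem cover_fixed {φ : (Fin r → ℤ) → Matrix (Fin n) (Fin n) ℤ} (h : IsRep φ)
    (hinj : Function.Injective φ) (K : PointedCone ℝ (Fin n → ℝ))
    (hcl : IsClosed (K : Set (Fin n → ℝ))) (hsal : ∀ x, x ∈ K → -x ∈ K → x = 0)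
    (hint : (interior (K : Set (Fin n → ℝ))).Nonempty)
    (hφ : ∀ z, ∀ x ∈ K, act (φ z) x ∈ K)
    (W : Submodule ℚ (Fin n → ℚ)) (hW : ∀ z, ∀ w ∈ W, qa (φ z) w = w)
    (hr : n ≤ r + 1 + finrank ℚ W) (hr' : r = n - 1 - finrank ℚ W) :
    ∃ S : Finset (Fin n → ℚ), (∀ v ∈ S, ratVec v ∈ interior (K : Set (Fin n → ℝ))) ∧
      ∀ x ∈ interior (K : Set (Fin n → ℝ)), ∃ z, ∃ y ∈ ratCone S,
        act (φ z) x - y ∈ rspan W := by
  rcases Nat.eq_zero_or_pos r with h0 | h0
  · obtain ⟨S, h1, h2⟩ := cover_A K W (by omega)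
    refine ⟨S, h1, fun x hx => ?_⟩
    obtain ⟨y, hy, hxy⟩ := h2 x hx
    exact ⟨0, y, hy, by rw [h.zero, act_one]; exact hxy⟩
  · have hr2 : r + 1 + finrank ℚ W = n := by omega
    by_cases hKW : ∀ x ∈ K, x ∈ rspan W → x = 0
    · exact cover_B h0 h hinj K hcl hsal hint hφ W hW hr2 hKW
    · push Not at hKW
      obtain ⟨f, hf, hfW, hf0⟩ := hKW
      exact cover_C h0 h hinj K hcl hsal hint hφ W hW hr2 f hf hfW hf0

/-- A permutation of a finite set of vectors has a power which fixes all of them. -/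
lemma pow_fixes (Δ : Fin k → Fin n → ℚ) (g : GL (Fin n) ℤ)
    (hg : ∀ j, ∃ j', qa g.val (Δ j) = Δ j') :
    ∀ j, qa (g.val ^ (Nat.factorial (Nat.card (Set.range Δ)))) (Δ j) = Δ j := by
  classical
  have hinj : Function.Injective (qa g.val) := by
    intro x y hxy
    have h1 : ∀ v : Fin n → ℚ, qa (g⁻¹ : GL (Fin n) ℤ).val (qa g.val v) = v := by
      intro v
      rw [← qa_mul, ← Units.val_mul, inv_mul_cancel, Units.val_one, qa_one]
    rw [← h1 x, ← h1 y, hxy]
  let X : Set (Fin n → ℚ) := Set.range Δ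
  have hfin : Finite X := (Set.finite_range Δ).to_subtype
  have := Fintype.ofFinite X
  let σ : X → X := fun x => ⟨qa g.val x.1, by
    obtain ⟨_, j, rfl⟩ := x
    obtain ⟨j', hj'⟩ := hg j
    exact ⟨j', hj'.symm⟩⟩
  have hσ : Function.Injective σ := by
    intro x y hxy
    exact Subtype.ext (hinj (congrArg Subtype.val hxy))
  let τ : Equiv.Perm X := Equiv.ofBijective σ (Finite.injective_iff_bijective.1 hσ)
  have hτ : ∀ l : ℕ, ∀ x : X, ((τ ^ l) x).1 = qa (g.val ^ l) x.1 := by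
    intro l
    induction l with
    | zero => intro x; rw [pow_zero, pow_zero, qa_one]; rfl
    | succ l ih =>
      intro x
      rw [pow_succ', pow_succ', qa_mul, ← ih x]
      rfl
  intro j
  have h1 : τ ^ (Nat.factorial (Nat.card X)) = 1 := by
    rw [Nat.card_eq_fintype_card, ← Fintype.card_perm]
    exact pow_card_eq_one
  have h2 := hτ (Nat.factorial (Nat.card X)) ⟨Δ j, ⟨j, rfl⟩⟩
  rw [h1] at h2
  exact h2.symm

/-- The covering theorem, for a group permuting the boundary classes. -/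
theorem cover_perm {φ : (Fin r → ℤ) → Matrix (Fin n) (Fin n) ℤ} (h : IsRep φ)
    (hinj : Function.Injective φ) (K : PointedCone ℝ (Fin n → ℝ))
    (hcl : IsClosed (K : Set (Fin n → ℝ))) (hsal : ∀ x, x ∈ K → -x ∈ K → x = 0)
    (hint : (interior (K : Set (Fin n → ℝ))).Nonempty)
    (hφ : ∀ z, ∀ x ∈ K, act (φ z) x ∈ K) (Δ : Fin k → Fin n → ℚ)
    (hΔ : ∀ z j, ∃ j', qa (φ z) (Δ j) = Δ j')
    (hr : r = n - 1 - finrank ℚ (Submodule.span ℚ (Set.range Δ))) :
    ∃ S : Finset (Fin n → ℚ), (∀ v ∈ S, ratVec v ∈ interior (K : Set (Fin n → ℝ))) ∧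
      ∀ x ∈ interior (K : Set (Fin n → ℝ)), ∃ z, ∃ y ∈ ratCone S,
        act (φ z) x - y ∈ rspan (Submodule.span ℚ (Set.range Δ)) := by
  classical
  set N : ℕ := Nat.factorial (Nat.card (Set.range Δ)) with hN
  have hNpos : N ≠ 0 := Nat.factorial_ne_zero _
  let φ' : (Fin r → ℤ) → Matrix (Fin n) (Fin n) ℤ := fun z => φ (N • z)
  have hrep : IsRep φ' := by
    constructor
    · show φ (N • 0) = 1
      rw [smul_zero, h.zero]
    · intro z w
      show φ (N • (z + w)) = φ (N • z) * φ (N • w)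
      rw [smul_add, h.add]
  have hinj' : Function.Injective φ' := by
    intro z w hzw
    have h1 : N • z = N • w := hinj hzw
    have h2 : N • (z - w) = 0 := by rw [smul_sub, h1, sub_self]
    rcases smul_eq_zero.1 h2 with h3 | h3
    · exact absurd h3 hNpos
    · exact sub_eq_zero.1 h3
  have hfix : ∀ z j, qa (φ' z) (Δ j) = Δ j := by
    intro z j
    let g : GL (Fin n) ℤ := ⟨φ z, φ (-z), h.mul_neg z, by
      rw [← h.add, neg_add_cancel, h.zero]⟩
    have h1 := pow_fixes Δ g (fun j => hΔ z j) j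
    have h2 : φ' z = g.val ^ N := by
      show φ (N • z) = φ z ^ N
      exact h.nsmul N z
    rw [h2]
    exact h1
  have hW : ∀ z, ∀ w ∈ Submodule.span ℚ (Set.range Δ), qa (φ' z) w = w := by
    intro z w hw
    induction hw using Submodule.span_induction with
    | mem y hy =>
      obtain ⟨j, rfl⟩ := hy
      exact hfix z j
    | zero => exact map_zero _
    | add y y' _ _ hy hy' => rw [map_add, hy, hy']
    | smul a y _ hy => rw [map_smul, hy]
  obtain ⟨S, hS1, hS2⟩ := cover_fixed hrep hinj' K hcl hsal hint (fun z => hφ (N • z))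
    (Submodule.span ℚ (Set.range Δ)) hW (by omega) hr
  refine ⟨S, hS1, fun x hx => ?_⟩
  obtain ⟨z, y, hy, hxy⟩ := hS2 x hx
  exact ⟨N • z, y, hy, hxy⟩

end Pool.Agent.H68Cone
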