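import Pool.Agent.H68Cone.Step

/-!
From the cone theorem in its usual form (extremal rays of the dual cone which are not orthogonal
to the boundary are spanned by integral classes of bounded degree) to `ConeThm`.
-/

set_option autoImplicit false

namespace Pool.Agent.H68Cone

open Module Filter Topology Pool.Agent.H93Cone Pool.Agent.H55.Cone

variable {n k : ℕ}

/-- The dual cone. -/
def dualCone (A : Set (Fin n → ℝ)) : Set (Fin n → ℝ) := {ξ | ∀ x ∈ A, 0 ≤ ξ ⬝ᵥ x}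

/-- `ξ` spans an extremal ray of the convex cone `A`. -/
def IsExtremalRay (A : Set (Fin n → ℝ)) (ξ : Fin n → ℝ) : Prop :=
  ξ ∈ A ∧ ξ ≠ 0 ∧ ∀ a ∈ A, ∀ b ∈ A, a + b = ξ → ∃ t : ℝ, 0 ≤ t ∧ a = t • ξ

/-- Extremal rays of the dual cone not orthogonal to `Δ j` contain an integral vector whose product
with `Δ j` is bounded. -/
def BoundedRays (Nef : Set (Fin n → ℝ)) (Δ : Fin k → Fin n → ℚ) : Prop :=
  ∃ B : ℝ, ∀ ξ, IsExtremalRay (dualCone Nef) ξ → ∀ j, ξ ⬝ᵥ ratVec (Δ j) ≠ 0 →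
    ∃ (c : Fin n → ℤ) (t : ℝ), 0 < t ∧ intVec c = t • ξ ∧ |intVec c ⬝ᵥ ratVec (Δ j)| ≤ B

lemma continuous_dot_left (y : Fin n → ℝ) : Continuous (fun ξ : Fin n → ℝ => ξ ⬝ᵥ y) := by
  unfold dotProduct
  fun_prop

/-- Separation of a point from a closed convex cone by a vector of the dual cone. -/
lemma exists_dual_neg (K : PointedCone ℝ (Fin n → ℝ)) (hcl : IsClosed (K : Set (Fin n → ℝ)))
    (v : Fin n → ℝ) (hv : v ∉ K) : ∃ ξ ∈ dualCone (K : Set (Fin n → ℝ)), ξ ⬝ᵥ v < 0 := by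
  obtain ⟨f, u, h1, h2⟩ := geometric_hahn_banach_point_closed (PointedCone.convex K) hcl hv
  have hu : u < 0 := by
    have := h2 0 (Submodule.zero_mem _)
    simpa using this
  have hf : ∀ x, f x = (fun i => f (Pi.single i 1)) ⬝ᵥ x := by
    intro x
    have hx : x = ∑ i, x i • (Pi.single i (1 : ℝ) : Fin n → ℝ) := by
      funext j
      simp [Finset.sum_apply, Pi.single_apply]
    conv_lhs => rw [hx]
    rw [map_sum, dotProduct]
    refine Finset.sum_congr rfl fun i _ => ?_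
    rw [map_smul, smul_eq_mul, mul_comm]
  refine ⟨fun i => f (Pi.single i 1), fun x hx => ?_, ?_⟩
  · rw [← hf]
    by_contra hneg
    push Not at hneg
    have hk : (u / f x + 1) • x ∈ K := by
      refine PointedCone.smul_mem _ ?_ hx
      have : 0 ≤ u / f x := div_nonneg_of_nonpos hu.le hneg.le
      linarith
    have := h2 _ hk
    rw [map_smul, smul_eq_mul, add_mul, div_mul_cancel₀ _ hneg.ne] at this
    linarith
  · rw [← hf]; linarith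

/-- A closed cone with interior is cut out by the extremal rays of its dual. -/
theorem mem_of_rays (K : PointedCone ℝ (Fin n → ℝ)) (hcl : IsClosed (K : Set (Fin n → ℝ)))
    (hint : (interior (K : Set (Fin n → ℝ))).Nonempty) (y : Fin n → ℝ)
    (hy : ∀ ξ, IsExtremalRay (dualCone (K : Set (Fin n → ℝ))) ξ → 0 ≤ ξ ⬝ᵥ y) : y ∈ K := by
  classical
  by_contra hyK
  obtain ⟨ξ₀, hξ₀, hξ₀y⟩ := exists_dual_neg K hcl y hyK
  obtain ⟨h, hh⟩ := hint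
  set N := dualCone (K : Set (Fin n → ℝ)) with hN
  obtain ⟨ε, hε, hball⟩ := Metric.isOpen_iff.1 isOpen_interior h hh
  -- coordinates of dual vectors are bounded by the value at `h`
  have hcoord : ∀ ξ ∈ N, ∀ i, |ξ i| * (ε / 2) ≤ ξ ⬝ᵥ h := by
    intro ξ hξ i
    have hmem : ∀ s : ℝ, |s| = ε / 2 → h + s • (Pi.single i (1 : ℝ) : Fin n → ℝ) ∈ K := by
      intro s hs
      refine interior_subset (hball ?_)
      rw [mem_ball_iff_norm, add_sub_cancel_left, norm_smul, Real.norm_eq_abs, hs,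
        Pi.norm_single, norm_one]
      linarith
    have hval : ∀ s : ℝ, ξ ⬝ᵥ (h + s • (Pi.single i (1 : ℝ) : Fin n → ℝ)) =
        ξ ⬝ᵥ h + s * ξ i := by
      intro s
      rw [dotProduct_add, dotProduct_smul, dotProduct_single, mul_one, smul_eq_mul]
    have h1 := hξ _ (hmem (ε / 2) (abs_of_pos (by linarith)))
    have h2 := hξ _ (hmem (-(ε / 2)) (by rw [abs_neg]; exact abs_of_pos (by linarith)))
    rw [hval] at h1 h2
    rcases abs_cases (ξ i) with ⟨h3, _⟩ | ⟨h3, _⟩ <;> rw [h3] <;> nlinarith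
  have hpos : ∀ ξ ∈ N, ξ ≠ 0 → 0 < ξ ⬝ᵥ h := by
    intro ξ hξ hξ0
    obtain ⟨i, hi⟩ : ∃ i, ξ i ≠ 0 := by
      by_contra hcon
      push Not at hcon
      exact hξ0 (funext hcon)
    refine lt_of_lt_of_le ?_ (hcoord ξ hξ i)
    exact mul_pos (abs_pos.2 hi) (by linarith)
  have hNsmul : ∀ ξ ∈ N, ∀ t : ℝ, 0 ≤ t → t • ξ ∈ N := by
    intro ξ hξ t ht x hx
    rw [smul_dotProduct]
    exact mul_nonneg ht (hξ x hx)
  have hNcl : IsClosed N := by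
    have e : N = ⋂ x ∈ (K : Set (Fin n → ℝ)), {ξ | 0 ≤ ξ ⬝ᵥ x} := by
      ext ξ; simp [hN, dualCone]
    rw [e]
    exact isClosed_biInter fun x _ => isClosed_le continuous_const (continuous_dot_left x)
  -- the base
  set B : Set (Fin n → ℝ) := N ∩ {ξ | ξ ⬝ᵥ h = 1} with hB
  have hBc : IsCompact B := by
    refine Metric.isCompact_of_isClosed_isBounded
      (hNcl.inter (isClosed_eq (continuous_dot_left h) continuous_const)) ?_
    rw [isBounded_iff_forall_norm_le]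
    refine ⟨2 / ε, fun ξ hξ => ?_⟩
    rw [pi_norm_le_iff_of_nonneg (by positivity)]
    intro i
    have h1 := hcoord ξ hξ.1 i
    have h2 : ξ ⬝ᵥ h = 1 := hξ.2
    rw [h2] at h1
    rw [Real.norm_eq_abs, le_div_iff₀ hε]
    linarith
  have hξ₀0 : ξ₀ ≠ 0 := by
    rintro rfl
    rw [zero_dotProduct] at hξ₀y
    exact lt_irrefl _ hξ₀y
  have hp := hpos ξ₀ hξ₀ hξ₀0
  have hmemB : (ξ₀ ⬝ᵥ h)⁻¹ • ξ₀ ∈ B := by
    refine ⟨hNsmul _ hξ₀ _ (inv_nonneg.2 hp.le), ?_⟩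
    show ((ξ₀ ⬝ᵥ h)⁻¹ • ξ₀) ⬝ᵥ h = 1
    rw [smul_dotProduct, smul_eq_mul, inv_mul_cancel₀ hp.ne']
  obtain ⟨η, hηB, hηmin⟩ := hBc.exists_isMinOn ⟨_, hmemB⟩ (continuous_dot_left y).continuousOn
  have hmin : ∀ ξ ∈ B, η ⬝ᵥ y ≤ ξ ⬝ᵥ y := fun ξ hξ => hηmin hξ
  have hneg : η ⬝ᵥ y < 0 := by
    refine lt_of_le_of_lt (hmin _ hmemB) ?_
    rw [smul_dotProduct, smul_eq_mul]
    exact mul_neg_of_pos_of_neg (inv_pos.2 hp) hξ₀y
  -- the face where the minimum is attained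
  set F : Set (Fin n → ℝ) := B ∩ {ξ | ξ ⬝ᵥ y = η ⬝ᵥ y} with hF
  have hFc : IsCompact F :=
    hBc.inter_right (isClosed_eq (continuous_dot_left y) continuous_const)
  obtain ⟨ζ, hζ⟩ := hFc.extremePoints_nonempty ⟨η, hηB, rfl⟩
  have hζF : ζ ∈ F := hζ.1
  have hζy : ζ ⬝ᵥ y = η ⬝ᵥ y := hζF.2
  have hζh : ζ ⬝ᵥ h = 1 := hζF.1.2
  have hζ0 : ζ ≠ 0 := by
    rintro rfl
    rw [zero_dotProduct] at hζh
    exact zero_ne_one hζh
  have hray : IsExtremalRay N ζ := by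
    refine ⟨hζF.1.1, hζ0, fun a ha b hb hab => ?_⟩
    by_cases ha0 : a = 0
    · exact ⟨0, le_rfl, by rw [ha0, zero_smul]⟩
    by_cases hb0 : b = 0
    · exact ⟨1, zero_le_one, by rw [one_smul, ← hab, hb0, add_zero]⟩
    have hαp := hpos a ha ha0
    have hβp := hpos b hb hb0
    have hsum : a ⬝ᵥ h + b ⬝ᵥ h = 1 := by rw [← add_dotProduct, hab, hζh]
    have haB : (a ⬝ᵥ h)⁻¹ • a ∈ B := by
      refine ⟨hNsmul _ ha _ (inv_nonneg.2 hαp.le), ?_⟩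
      show ((a ⬝ᵥ h)⁻¹ • a) ⬝ᵥ h = 1
      rw [smul_dotProduct, smul_eq_mul, inv_mul_cancel₀ hαp.ne']
    have hbB : (b ⬝ᵥ h)⁻¹ • b ∈ B := by
      refine ⟨hNsmul _ hb _ (inv_nonneg.2 hβp.le), ?_⟩
      show ((b ⬝ᵥ h)⁻¹ • b) ⬝ᵥ h = 1
      rw [smul_dotProduct, smul_eq_mul, inv_mul_cancel₀ hβp.ne']
    have h1 := hmin _ haB
    have h2 := hmin _ hbB
    rw [smul_dotProduct, smul_eq_mul] at h1 h2
    have h3 : (a ⬝ᵥ h) * (η ⬝ᵥ y) ≤ a ⬝ᵥ y := by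
      have := mul_le_mul_of_nonneg_left h1 hαp.le
      rwa [← mul_assoc, mul_inv_cancel₀ hαp.ne', one_mul] at this
    have h4 : (b ⬝ᵥ h) * (η ⬝ᵥ y) ≤ b ⬝ᵥ y := by
      have := mul_le_mul_of_nonneg_left h2 hβp.le
      rwa [← mul_assoc, mul_inv_cancel₀ hβp.ne', one_mul] at this
    have h5 : a ⬝ᵥ y + b ⬝ᵥ y = η ⬝ᵥ y := by rw [← add_dotProduct, hab, hζy]
    have h6 : (a ⬝ᵥ h) * (η ⬝ᵥ y) + (b ⬝ᵥ h) * (η ⬝ᵥ y) = η ⬝ᵥ y := by
      rw [← add_mul, hsum, one_mul]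
    have h7 : a ⬝ᵥ y = (a ⬝ᵥ h) * (η ⬝ᵥ y) := by linarith
    have h8 : b ⬝ᵥ y = (b ⬝ᵥ h) * (η ⬝ᵥ y) := by linarith
    have haF : (a ⬝ᵥ h)⁻¹ • a ∈ F := by
      refine ⟨haB, ?_⟩
      show ((a ⬝ᵥ h)⁻¹ • a) ⬝ᵥ y = η ⬝ᵥ y
      rw [smul_dotProduct, smul_eq_mul, h7, ← mul_assoc, inv_mul_cancel₀ hαp.ne', one_mul]
    have hbF : (b ⬝ᵥ h)⁻¹ • b ∈ F := by
      refine ⟨hbB, ?_⟩
      show ((b ⬝ᵥ h)⁻¹ • b) ⬝ᵥ y = η ⬝ᵥ y
      rw [smul_dotProduct, smul_eq_mul, h8, ← mul_assoc, inv_mul_cancel₀ hβp.ne', one_mul]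
    have hseg : ζ ∈ openSegment ℝ ((a ⬝ᵥ h)⁻¹ • a) ((b ⬝ᵥ h)⁻¹ • b) := by
      refine ⟨a ⬝ᵥ h, b ⬝ᵥ h, hαp, hβp, hsum, ?_⟩
      rw [smul_smul, smul_smul, mul_inv_cancel₀ hαp.ne', mul_inv_cancel₀ hβp.ne', one_smul,
        one_smul, hab]
    have h9 := hζ.2 haF hbF hseg
    refine ⟨a ⬝ᵥ h, hαp.le, ?_⟩
    rw [← h9, smul_smul, mul_inv_cancel₀ hαp.ne', one_smul]
  have := hy ζ hray
  rw [hζy] at this
  linarith

theorem coneThm_of_rays (K : PointedCone ℝ (Fin n → ℝ)) (hcl : IsClosed (K : Set (Fin n → ℝ)))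
    (hint : (interior (K : Set (Fin n → ℝ))).Nonempty) (Δ : Fin k → Fin n → ℚ)
    (hB : BoundedRays (K : Set (Fin n → ℝ)) Δ) : ConeThm (K : Set (Fin n → ℝ)) Δ := by
  classical
  obtain ⟨B, hB⟩ := hB
  set N := dualCone (K : Set (Fin n → ℝ)) with hN
  refine ⟨{c | (∀ j, |intVec c ⬝ᵥ ratVec (Δ j)| ≤ |B|) ∧ ∃ (ξ : Fin n → ℝ) (t : ℝ),
      IsExtremalRay N ξ ∧ 0 < t ∧ intVec c = t • ξ}, {θ | θ ∈ N ∧ ∀ j, θ ⬝ᵥ ratVec (Δ j) = 0}, |B|, fun c hc => hc.1,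
    fun θ hθ => hθ.2, ?_⟩
  apply Set.Subset.antisymm
  · intro y hy
    refine ⟨fun c hc => ?_, fun θ hθ => hθ.1 y hy⟩
    obtain ⟨_, ξ, t, hξ, ht, hct⟩ := hc
    rw [hct, smul_dotProduct]
    exact mul_nonneg ht.le (hξ.1 y hy)
  · rintro y ⟨hy1, hy2⟩
    refine mem_of_rays K hcl hint y fun ξ hξ => ?_
    by_cases hall : ∀ j, ξ ⬝ᵥ ratVec (Δ j) = 0
    · exact hy2 ξ ⟨hξ.1, hall⟩
    push Not at hall
    obtain ⟨j₀, hj₀⟩ := hall
    obtain ⟨c₁, t₁, ht₁, hc₁, _⟩ := hB ξ hξ j₀ hj₀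
    -- the integral vector of least size
    have hex : ∃ M : ℕ, ∃ (c : Fin n → ℤ) (t : ℝ), 0 < t ∧ intVec c = t • ξ ∧
        ∑ i, (c i).natAbs = M := ⟨_, c₁, t₁, ht₁, hc₁, rfl⟩
    obtain ⟨c, t, ht, hct, hM⟩ := Nat.find_spec hex
    have hsize : ∀ (c : Fin n → ℤ) (t : ℝ), 0 < t → intVec c = t • ξ →
        ((∑ i, (c i).natAbs : ℕ) : ℝ) = t * ∑ i, |ξ i| := by
      intro c t ht hct
      push_cast
      rw [Finset.mul_sum]
      refine Finset.sum_congr rfl fun i _ => ?_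
      have h1 : ((c i : ℤ) : ℝ) = t * ξ i := congrFun hct i
      rw [Nat.cast_natAbs, Int.cast_abs, h1, abs_mul, abs_of_pos ht]
    have hξpos : 0 < ∑ i, |ξ i| := by
      obtain ⟨i, hi⟩ : ∃ i, ξ i ≠ 0 := by
        by_contra hcon
        push Not at hcon
        exact hξ.2.1 (funext hcon)
      exact Finset.sum_pos' (fun i _ => abs_nonneg _) ⟨i, Finset.mem_univ _, abs_pos.2 hi⟩
    have hleast : ∀ (c' : Fin n → ℤ) (t' : ℝ), 0 < t' → intVec c' = t' • ξ → t ≤ t' := by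
      intro c' t' ht' hc'
      have h1 : Nat.find hex ≤ ∑ i, (c' i).natAbs :=
        Nat.find_min' hex ⟨c', t', ht', hc', rfl⟩
      rw [← hM] at h1
      have h2 : ((∑ i, (c i).natAbs : ℕ) : ℝ) ≤ ((∑ i, (c' i).natAbs : ℕ) : ℝ) := by
        exact_mod_cast h1
      rw [hsize c t ht hct, hsize c' t' ht' hc'] at h2
      exact le_of_mul_le_mul_right h2 hξpos
    have hcC : 0 ≤ intVec c ⬝ᵥ y := by
      refine hy1 c ⟨fun j => ?_, ξ, t, hξ, ht, hct⟩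
      by_cases hj : ξ ⬝ᵥ ratVec (Δ j) = 0
      · rw [hct, smul_dotProduct, hj, smul_zero, abs_zero]
        exact abs_nonneg _
      · obtain ⟨c', t', ht', hc', hb⟩ := hB ξ hξ j hj
        refine le_trans ?_ (hb.trans (le_abs_self B))
        rw [hct, hc', smul_dotProduct, smul_dotProduct, smul_eq_mul, smul_eq_mul, abs_mul,
          abs_mul, abs_of_pos ht, abs_of_pos ht']
        exact mul_le_mul_of_nonneg_right (hleast c' t' ht' hc') (abs_nonneg _)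
    rw [hct, smul_dotProduct, smul_eq_mul] at hcC
    exact nonneg_of_mul_nonneg_right hcC ht

end Pool.Agent.H68Cone
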