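import Pool.Agent.H68Cone.Reduction
import Pool.Agent.H68Cone.Rays
import Pool.Agent.H55.Cone.Big
import Pool.Agent.H92Cone.Criterion

/-!
A criterion for the cone conjecture modulo the boundary classes.
-/

set_option autoImplicit false

namespace Pool.Agent.H68Cone

open Module Filter Topology Pool.Agent.H93Cone Pool.Agent.H55.Cone Pool.Agent.H92Cone

variable {n k : ℕ}

/-- Classes which are big after adding a multiple of the boundary. -/
def bigMod (Eff : Set (Fin n → ℝ)) (Δ : Fin k → Fin n → ℚ) : Set (Fin n → ℝ) :=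
  {x | ∃ t : ℝ, 0 ≤ t ∧ x + t • ∑ j, ratVec (Δ j) ∈ interior Eff}

/-- Classes which are effective after adding a multiple of the boundary. -/
def effMod (Eff : PointedCone ℝ (Fin n → ℝ)) (δ : Fin n → ℝ) : PointedCone ℝ (Fin n → ℝ) where
  carrier := {x | ∃ t : ℝ, 0 ≤ t ∧ x + t • δ ∈ Eff}
  add_mem' := by
    rintro x y ⟨s, hs, hx⟩ ⟨t, ht, hy⟩
    refine ⟨s + t, add_nonneg hs ht, ?_⟩
    have e : x + y + (s + t) • δ = (x + s • δ) + (y + t • δ) := by
      rw [add_smul]; abel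
    rw [e]
    exact Submodule.add_mem _ hx hy
  zero_mem' := ⟨0, le_rfl, by rw [zero_smul, add_zero]; exact Submodule.zero_mem _⟩
  smul_mem' := by
    rintro a x ⟨s, hs, hx⟩
    refine ⟨a * s, mul_nonneg a.2 hs, ?_⟩
    have e : a • x + ((a : ℝ) * s) • δ = (a : ℝ) • (x + s • δ) := by
      rw [smul_add, smul_smul]; rfl
    rw [e]
    exact PointedCone.smul_mem _ a.2 hx

lemma mem_effMod (Eff : PointedCone ℝ (Fin n → ℝ)) (δ x : Fin n → ℝ) :
    x ∈ effMod Eff δ ↔ ∃ t : ℝ, 0 ≤ t ∧ x + t • δ ∈ Eff := Iff.rfl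

lemma bigMod_eq (Eff : PointedCone ℝ (Fin n → ℝ)) (Δ : Fin k → Fin n → ℚ)
    (hne : (interior (Eff : Set (Fin n → ℝ))).Nonempty) :
    bigMod (Eff : Set (Fin n → ℝ)) Δ =
      interior (effMod Eff (∑ j, ratVec (Δ j)) : Set (Fin n → ℝ)) := by
  set δ := ∑ j, ratVec (Δ j) with hδ
  apply Set.Subset.antisymm
  · refine interior_maximal ?_ ?_
    · rintro x ⟨t, ht, hx⟩
      exact ⟨t, ht, interior_subset hx⟩
    · have e : bigMod (Eff : Set (Fin n → ℝ)) Δ =
          ⋃ t ∈ Set.Ici (0 : ℝ), (fun x : Fin n → ℝ => x + t • δ) ⁻¹'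
            interior (Eff : Set (Fin n → ℝ)) := by
        ext x
        simp only [bigMod, Set.mem_iUnion, Set.mem_Ici, Set.mem_preimage, exists_prop]
        rfl
      rw [e]
      exact isOpen_biUnion fun t _ => isOpen_interior.preimage (by fun_prop)
  · intro x hx
    obtain ⟨a, ha⟩ := hne
    have h1 : Tendsto (fun t : ℝ => x - t • a) (𝓝[>] 0) (𝓝 (x - (0 : ℝ) • a)) := by
      refine Tendsto.mono_left ?_ nhdsWithin_le_nhds
      exact (continuous_const.sub (continuous_id.smul continuous_const)).tendsto 0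
    rw [zero_smul, sub_zero] at h1
    have h2 := h1.eventually (isOpen_interior.mem_nhds hx)
    obtain ⟨ε, hε, hεpos⟩ := (h2.and self_mem_nhdsWithin).exists
    obtain ⟨t, ht, hxt⟩ := interior_subset hε
    refine ⟨t, ht, ?_⟩
    have e : x + t • δ = ε • a + (x - ε • a + t • δ) := by abel
    rw [e]
    exact add_mem_interior Eff (smul_mem_interior Eff ha hεpos) hxt

/-- Local rational polyhedral neighbourhoods of nef classes which are big modulo the boundary. -/
lemma local_cone (Nef Eff : PointedCone ℝ (Fin n → ℝ)) (Δ : Fin k → Fin n → ℚ)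
    (hne : (interior (Eff : Set (Fin n → ℝ))).Nonempty)
    (hLP : LocallyRationalPolyhedral (Nef : Set (Fin n → ℝ))
      (bigMod (Eff : Set (Fin n → ℝ)) Δ)) {q : Fin n → ℚ} {c : ℝ} (hc : 0 < c)
    (hq : ∀ x ∈ Nef, c * ‖x‖ ≤ ratVec q ⬝ᵥ x) (x : Fin n → ℝ) (hxN : x ∈ Nef)
    (hx : x ∈ bigMod (Eff : Set (Fin n → ℝ)) Δ) :
    ∃ S : Finset (Fin n → ℚ),
      (∀ y ∈ ratCone S, y ∈ Nef ∧ y ∈ effMod Eff (∑ j, ratVec (Δ j))) ∧
      ∀ᶠ y in 𝓝 x, y ∈ Nef → y ∈ ratCone S := by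
  classical
  set δ := ∑ j, ratVec (Δ j) with hδ
  by_cases hx0 : x = 0
  · -- `Nef` is rational polyhedral and every class is big modulo the boundary
    subst hx0
    obtain ⟨L, hL⟩ := hLP 0 ⟨hxN, hx⟩
    obtain ⟨S, hS⟩ := minkowski_weyl L.toList
    have hNef : ∀ y : Fin n → ℝ, y ∈ Nef ↔ ∀ l ∈ L, 0 ≤ ratVec l ⬝ᵥ y := by
      intro y
      have h1 : Tendsto (fun t : ℝ => t • y) (𝓝[>] 0) (𝓝 ((0 : ℝ) • y)) := by
        refine Tendsto.mono_left ?_ nhdsWithin_le_nhds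
        exact (continuous_id.smul continuous_const).tendsto 0
      rw [zero_smul] at h1
      obtain ⟨t, ht, htpos⟩ := ((h1.eventually hL).and self_mem_nhdsWithin).exists
      have htpos' : (0 : ℝ) < t := htpos
      have h2 : y ∈ Nef ↔ t • y ∈ (Nef : Set (Fin n → ℝ)) := by
        constructor
        · intro h; exact PointedCone.smul_mem _ htpos'.le h
        · intro h
          have h3 := PointedCone.smul_mem Nef (inv_nonneg.2 htpos'.le) h
          rwa [smul_smul, inv_mul_cancel₀ htpos'.ne', one_smul] at h3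
      rw [h2, ht]
      constructor
      · intro h l hl
        have h3 := h l hl
        rw [dotProduct_smul, smul_eq_mul] at h3
        exact nonneg_of_mul_nonneg_right h3 htpos'
      · intro h l hl
        rw [dotProduct_smul, smul_eq_mul]
        exact mul_nonneg htpos'.le (h l hl)
    have hmem : ∀ y, y ∈ ratCone S ↔ y ∈ Nef := by
      intro y
      rw [hNef]
      have h1 := hS y
      simp only [Finset.mem_toList] at h1
      exact h1
    refine ⟨S, fun y hy => ⟨(hmem y).1 hy, ?_⟩, Eventually.of_forall fun y hy => (hmem y).2 hy⟩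
    -- a multiple of the boundary is big
    obtain ⟨t, ht, h0⟩ := hx
    rw [zero_add] at h0
    have h1 : Tendsto (fun s : ℝ => t • δ + s • y) (𝓝[>] 0) (𝓝 (t • δ + (0 : ℝ) • y)) := by
      refine Tendsto.mono_left ?_ nhdsWithin_le_nhds
      exact (continuous_const.add (continuous_id.smul continuous_const)).tendsto 0
    rw [zero_smul, add_zero] at h1
    obtain ⟨s, hs, hspos⟩ := ((h1.eventually (isOpen_interior.mem_nhds h0)).and
      self_mem_nhdsWithin).exists
    have hspos' : (0 : ℝ) < s := hspos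
    refine ⟨s⁻¹ * t, mul_nonneg (inv_nonneg.2 hspos'.le) ht, ?_⟩
    have h2 := PointedCone.smul_mem Eff (inv_nonneg.2 hspos'.le) (interior_subset hs)
    rw [smul_add, smul_smul, smul_smul, inv_mul_cancel₀ hspos'.ne', one_smul, add_comm] at h2
    exact h2
  · have hqx : 0 < ratVec q ⬝ᵥ x := lt_of_lt_of_le (mul_pos hc (norm_pos_iff.2 hx0)) (hq x hxN)
    rw [bigMod_eq Eff Δ hne] at hLP hx
    obtain ⟨S, hS1, hS2⟩ := exists_local_cone Nef (effMod Eff δ) hLP x hxN hx hqx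
    refine ⟨S, fun y hy => ?_, hS2⟩
    rcases hS1 y hy with rfl | h
    · exact ⟨Submodule.zero_mem _, Submodule.zero_mem _⟩
    · exact ⟨h.1, interior_subset h.2⟩

theorem criterion (Nef Eff : PointedCone ℝ (Fin n → ℝ)) (D : Set (Fin n → ℤ))
    (hNef : IsClosed (Nef : Set (Fin n → ℝ)))
    (hample : (interior (Nef : Set (Fin n → ℝ))).Nonempty)
    (hEff : Eff = PointedCone.hull ℝ (intVec '' D))
    (hampleEff : interior (Nef : Set (Fin n → ℝ)) ⊆ (Eff : Set (Fin n → ℝ)))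
    (hsal : ∀ x, x ∈ closure (Eff : Set (Fin n → ℝ)) → -x ∈ closure (Eff : Set (Fin n → ℝ)) →
      x = 0)
    (G : Subgroup (GL (Fin n) ℤ))
    (hGNef : ∀ g ∈ G, ∀ x ∈ Nef, act g.val x ∈ Nef)
    (hGEff : ∀ g ∈ G, ∀ x ∈ Eff, act g.val x ∈ Eff)
    (Δ : Fin k → Fin n → ℚ) (hΔ : ∀ j, ratVec (Δ j) ∈ Eff)
    (hrays : BoundedRays (Nef : Set (Fin n → ℝ)) Δ)
    (hLP : LocallyRationalPolyhedral (Nef : Set (Fin n → ℝ))
      (bigMod (Eff : Set (Fin n → ℝ)) Δ)) :
    HasDomain G ((Nef : Set (Fin n → ℝ)) ∩ Eff) ↔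
      (∀ v : Fin n → ℚ, ratVec v ∈ Nef → ∀ t : ℝ, 0 ≤ t →
        ratVec v + t • ∑ j, ratVec (Δ j) ∈ Eff → ratVec v ∈ Eff) ∧
      ∃ (K : Set (Fin n → ℝ)) (S : Finset (Fin n → ℚ)), IsCompact K ∧
        K ⊆ (Nef : Set (Fin n → ℝ)) ∩ bigMod (Eff : Set (Fin n → ℝ)) Δ ∧
        ratCone S ⊆ (Nef : Set (Fin n → ℝ)) ∩ Eff ∧
        ∀ x ∈ interior (Nef : Set (Fin n → ℝ)), ∃ g ∈ G,
          (∃ t : ℝ, 0 < t ∧ ∃ y ∈ K, act g.val (t • x) - y ∈ bspan Δ) ∨
            ∃ y ∈ ratCone S, act g.val x - y ∈ bspan Δ := by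
  classical
  obtain ⟨_, hB, hC, _⟩ := final Nef Eff D hample hEff hampleEff hsal G hGNef hGEff
  have hNE : (Nef : Set (Fin n → ℝ)) ⊆ closure (Eff : Set (Fin n → ℝ)) := by
    intro x hx
    have h1 : closure (interior (Nef : Set (Fin n → ℝ))) = closure (Nef : Set (Fin n → ℝ)) :=
      (PointedCone.convex Nef).closure_interior_eq_closure_of_nonempty_interior hample
    have h2 : x ∈ closure (interior (Nef : Set (Fin n → ℝ))) := by
      rw [h1]; exact subset_closure hx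
    exact closure_mono (fun y hy => hampleEff hy) h2
  have hsalN : ∀ x, x ∈ Nef → -x ∈ Nef → x = 0 := fun x h1 h2 => hsal x (hNE h1) (hNE h2)
  constructor
  · intro h
    refine ⟨fun v hv _ _ _ => ?_, ?_⟩
    · have h1 := (hC.1 h).2
      exact h1 (Submodule.subset_span ⟨hv, v, rfl⟩)
    · obtain ⟨S, hS1, hS2⟩ := hB.1 h
      refine ⟨∅, S, isCompact_empty, Set.empty_subset _, hS1, fun x hx => ?_⟩
      obtain ⟨γ, hγ, y, hy, rfl⟩ := mem_translates.1 (hS2 hx)
      refine ⟨γ⁻¹, G.inv_mem hγ, Or.inr ⟨y, hy, ?_⟩⟩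
      rw [act_val_inv, sub_self]
      exact Submodule.zero_mem _
  · rintro ⟨ha, K, S, hKc, hKs, hS1, hS2⟩
    set δ := ∑ j, ratVec (Δ j) with hδ
    obtain ⟨q, c, hc, hq⟩ := exists_pos_rat Nef hNef hsalN
    have hopen : interior (Nef : Set (Fin n → ℝ)) ⊆ interior (Eff : Set (Fin n → ℝ)) :=
      interior_maximal hampleEff isOpen_interior
    -- a finite set whose cone contains `K`
    obtain ⟨S₁, hS₁, hKS₁⟩ : ∃ S₁ : Finset (Fin n → ℚ),
        (∀ v ∈ S₁, ratVec v ∈ Nef ∧ ratVec v ∈ effMod Eff δ) ∧ K ⊆ ratCone S₁ := by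
      have hKN : K ⊆ (Nef : Set (Fin n → ℝ)) := fun x hx => (hKs hx).1
      refine hKc.induction_on (p := fun K' => ∃ S₁ : Finset (Fin n → ℚ),
        (∀ v ∈ S₁, ratVec v ∈ Nef ∧ ratVec v ∈ effMod Eff δ) ∧ K' ∩ K ⊆ ratCone S₁)
        ?_ ?_ ?_ ?_ |>.imp fun S₁ h => ⟨h.1, fun x hx => h.2 ⟨hx, hx⟩⟩
      · exact ⟨∅, by simp, by simp⟩
      · rintro s t hst ⟨S, h1, h2⟩
        exact ⟨S, h1, fun x hx => h2 ⟨hst hx.1, hx.2⟩⟩
      · rintro s t ⟨S, h1, h2⟩ ⟨T, h3, h4⟩
        refine ⟨S ∪ T, fun v hv => ?_, ?_⟩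
        · rcases Finset.mem_union.1 hv with h | h
          · exact h1 v h
          · exact h3 v h
        · rintro x ⟨hx | hx, hxK⟩
          · refine Submodule.span_mono (Set.image_mono ?_) (h2 ⟨hx, hxK⟩)
            exact Finset.coe_subset.2 Finset.subset_union_left
          · refine Submodule.span_mono (Set.image_mono ?_) (h4 ⟨hx, hxK⟩)
            exact Finset.coe_subset.2 Finset.subset_union_right
      · intro x hx
        obtain ⟨S, h1, h2⟩ := local_cone Nef Eff Δ (hample.mono hopen) hLP hc hq x (hKs hx).1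
          (hKs hx).2
        refine ⟨{y | y ∈ Nef → y ∈ ratCone S}, mem_nhdsWithin_of_mem_nhds h2, S,
          fun v hv => h1 _ (Submodule.subset_span ⟨v, hv, rfl⟩), ?_⟩
        rintro y ⟨hy, hyK⟩
        exact hy (hKN hyK)
    set S₂ := S ∪ S₁ with hS₂def
    have hS₂ : ∀ v ∈ S₂, ratVec v ∈ Nef ∧ ratVec v ∈ effMod Eff δ := by
      intro v hv
      rcases Finset.mem_union.1 hv with h | h
      · have h1 := hS1 (Submodule.subset_span ⟨v, h, rfl⟩)
        exact ⟨h1.1, 0, le_rfl, by rw [zero_smul, add_zero]; exact h1.2⟩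
      · exact hS₁ v h
    have hle : PointedCone.hull ℝ (ratVec '' (S₂ : Set (Fin n → ℚ))) ≤ effMod Eff δ :=
      Submodule.span_le.2 (by rintro _ ⟨v, hv, rfl⟩; exact (hS₂ v hv).2)
    obtain ⟨S', hS'⟩ := step Nef Δ (coneThm_of_rays Nef hNef hample Δ hrays) S₂
      (fun v hv => (hS₂ v hv).1)
    refine hB.2 ⟨S', ?_, ?_⟩
    · have hgen : ∀ v ∈ S', ratVec v ∈ Nef ∧ ratVec v ∈ Eff := by
        intro v hv
        obtain ⟨h1, y, hy, hvy⟩ := (hS' (ratVec v)).1 (Submodule.subset_span ⟨v, hv, rfl⟩)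
        obtain ⟨t, ht, hft⟩ := eff_of_sum Eff Δ hΔ _ hvy
        obtain ⟨t', ht', hyt⟩ := hle hy
        refine ⟨h1, ha v h1 (t + t') (add_nonneg ht ht') ?_⟩
        have e : ratVec v + (t + t') • δ = (y + t' • δ) + (ratVec v - y + t • δ) := by
          rw [add_smul]; abel
        rw [e]
        exact Submodule.add_mem _ hyt hft
      intro x hx
      have h1 : PointedCone.hull ℝ (ratVec '' (S' : Set (Fin n → ℚ))) ≤ Nef :=
        Submodule.span_le.2 (by rintro _ ⟨v, hv, rfl⟩; exact (hgen v hv).1)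
      have h2 : PointedCone.hull ℝ (ratVec '' (S' : Set (Fin n → ℚ))) ≤ Eff :=
        Submodule.span_le.2 (by rintro _ ⟨v, hv, rfl⟩; exact (hgen v hv).2)
      exact ⟨h1 hx, h2 hx⟩
    · intro x hx
      obtain ⟨g, hg, h⟩ := hS2 x hx
      refine mem_translates.2 ⟨g⁻¹, G.inv_mem hg, act g.val x, ?_, act_val_inv _ _⟩
      refine (hS' _).2 ⟨hGNef g hg x (interior_subset hx), ?_⟩
      rcases h with ⟨t, ht, y, hy, hxy⟩ | ⟨y, hy, hxy⟩
      · refine ⟨t⁻¹ • y, PointedCone.smul_mem _ (inv_nonneg.2 ht.le)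
          (Submodule.span_mono (Set.image_mono ?_) (hKS₁ hy)), ?_⟩
        · exact Finset.coe_subset.2 Finset.subset_union_right
        · have e : act g.val x - t⁻¹ • y = t⁻¹ • (act g.val (t • x) - y) := by
            rw [map_smul, smul_sub, smul_smul, inv_mul_cancel₀ ht.ne', one_smul]
          rw [e]
          exact Submodule.smul_mem _ _ hxy
      · refine ⟨y, Submodule.span_mono (Set.image_mono ?_) hy, hxy⟩
        exact Finset.coe_subset.2 Finset.subset_union_left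

end Pool.Agent.H68Cone
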