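import Pool.Agent.H68Cone.Quot
import Pool.Agent.H55.Cone.Big

/-!
Images of closed salient cones under linear maps with kernel meeting the cone trivially.
-/

set_option autoImplicit false

namespace Pool.Agent.H68Cone

open Module Filter Topology Pool.Agent.H93Cone Pool.Agent.H55.Cone

variable {n m : ℕ}

lemma mem_map' (P : (Fin n → ℝ) →ₗ[ℝ] (Fin m → ℝ)) (K : PointedCone ℝ (Fin n → ℝ))
    (y : Fin m → ℝ) : y ∈ PointedCone.map P K ↔ ∃ x ∈ K, P x = y :=
  PointedCone.mem_map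

lemma cont_lin (P : (Fin n → ℝ) →ₗ[ℝ] (Fin m → ℝ)) : Continuous P :=
  LinearMap.continuous_of_finiteDimensional P

/-- A lower bound for the norm of the image. -/
lemma exists_lower (P : (Fin n → ℝ) →ₗ[ℝ] (Fin m → ℝ)) (K : PointedCone ℝ (Fin n → ℝ))
    (hcl : IsClosed (K : Set (Fin n → ℝ))) (hker : ∀ x ∈ K, P x = 0 → x = 0) :
    ∃ c : ℝ, 0 < c ∧ ∀ x ∈ K, c * ‖x‖ ≤ ‖P x‖ := by
  set B : Set (Fin n → ℝ) := (K : Set (Fin n → ℝ)) ∩ Metric.sphere 0 1 with hB
  have hBc : IsCompact B := (isCompact_sphere 0 1).inter_left hcl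
  rcases B.eq_empty_or_nonempty with h | h
  · refine ⟨1, one_pos, fun x hx => ?_⟩
    by_cases hx0 : x = 0
    · subst hx0; simp
    · exfalso
      have hn : ‖x‖ ≠ 0 := norm_ne_zero_iff.2 hx0
      have h1 : ‖x‖⁻¹ • x ∈ B := by
        refine ⟨PointedCone.smul_mem _ (inv_nonneg.2 (norm_nonneg _)) hx, ?_⟩
        rw [mem_sphere_zero_iff_norm, norm_smul, norm_inv, norm_norm, inv_mul_cancel₀ hn]
      rw [h] at h1
      exact h1
  · obtain ⟨x₀, hx₀, hmin⟩ := hBc.exists_isMinOn h ((cont_lin P).norm.continuousOn)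
    have hx₀1 : ‖x₀‖ = 1 := mem_sphere_zero_iff_norm.1 hx₀.2
    refine ⟨‖P x₀‖, ?_, fun x hx => ?_⟩
    · rw [norm_pos_iff]
      intro h0
      have := hker x₀ hx₀.1 h0
      rw [this, norm_zero] at hx₀1
      exact zero_ne_one hx₀1
    · by_cases hx0 : x = 0
      · subst hx0; simp
      · have hn : ‖x‖ ≠ 0 := norm_ne_zero_iff.2 hx0
        have h1 : ‖x‖⁻¹ • x ∈ B := by
          refine ⟨PointedCone.smul_mem _ (inv_nonneg.2 (norm_nonneg _)) hx, ?_⟩
          rw [mem_sphere_zero_iff_norm, norm_smul, norm_inv, norm_norm, inv_mul_cancel₀ hn]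
        have h2 : ‖P x₀‖ ≤ ‖P (‖x‖⁻¹ • x)‖ := hmin h1
        rw [map_smul, norm_smul, norm_inv, norm_norm] at h2
        have h3 := mul_le_mul_of_nonneg_right h2 (norm_nonneg x)
        rwa [mul_comm ‖x‖⁻¹, mul_assoc, inv_mul_cancel₀ hn, mul_one] at h3

lemma map_closed (P : (Fin n → ℝ) →ₗ[ℝ] (Fin m → ℝ)) (K : PointedCone ℝ (Fin n → ℝ))
    (hcl : IsClosed (K : Set (Fin n → ℝ))) (hker : ∀ x ∈ K, P x = 0 → x = 0) :
    IsClosed (PointedCone.map P K : Set (Fin m → ℝ)) := by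
  obtain ⟨c, hc, hlow⟩ := exists_lower P K hcl hker
  refine isClosed_of_closure_subset fun y hy => ?_
  set R : ℝ := (‖y‖ + 1) / c with hR
  have hcomp : IsCompact (P '' ((K : Set (Fin n → ℝ)) ∩ Metric.closedBall 0 R)) :=
    ((isCompact_closedBall 0 R).inter_left hcl).image (cont_lin P)
  have hsub : (PointedCone.map P K : Set (Fin m → ℝ)) ∩ Metric.ball y 1 ⊆
      P '' ((K : Set (Fin n → ℝ)) ∩ Metric.closedBall 0 R) := by
    rintro z ⟨hz, hzy⟩
    obtain ⟨x, hx, rfl⟩ := (mem_map' P K z).1 hz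
    refine ⟨x, ⟨hx, ?_⟩, rfl⟩
    rw [mem_closedBall_zero_iff, hR, le_div_iff₀ hc, mul_comm]
    refine (hlow x hx).trans ?_
    have h1 : ‖P x - y‖ < 1 := mem_ball_iff_norm.1 hzy
    have h2 : ‖P x‖ ≤ ‖y‖ + ‖P x - y‖ := by
      have := norm_add_le y (P x - y)
      rwa [add_sub_cancel] at this
    linarith
  have h1 : y ∈ closure ((PointedCone.map P K : Set (Fin m → ℝ)) ∩ Metric.ball y 1) := by
    rw [mem_closure_iff_nhds] at hy ⊢
    intro t ht
    obtain ⟨z, hz1, hz2⟩ := hy (t ∩ Metric.ball y 1) (inter_mem ht (Metric.ball_mem_nhds y one_pos))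
    exact ⟨z, hz1.1, hz2, hz1.2⟩
  have h2 := closure_mono hsub h1
  rw [hcomp.isClosed.closure_eq] at h2
  obtain ⟨x, hx, rfl⟩ := h2
  exact (mem_map' P K _).2 ⟨x, hx.1, rfl⟩

lemma map_salient (P : (Fin n → ℝ) →ₗ[ℝ] (Fin m → ℝ)) (K : PointedCone ℝ (Fin n → ℝ))
    (hsal : ∀ x, x ∈ K → -x ∈ K → x = 0) (hker : ∀ x ∈ K, P x = 0 → x = 0) :
    ∀ y, y ∈ PointedCone.map P K → -y ∈ PointedCone.map P K → y = 0 := by
  intro y hy hy'
  obtain ⟨x, hx, rfl⟩ := (mem_map' P K y).1 hy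
  obtain ⟨x', hx', h⟩ := (mem_map' P K _).1 hy'
  have h1 : P (x + x') = 0 := by rw [map_add, h, add_neg_cancel]
  have h2 := hker _ (Submodule.add_mem _ hx hx') h1
  have h3 : -x = x' := neg_eq_of_add_eq_zero_right h2
  have h4 : x = 0 := hsal x hx (by rw [h3]; exact hx')
  rw [h4, map_zero]

/-- The interior of the image is the image of the interior. -/
lemma map_interior (P : (Fin n → ℝ) →ₗ[ℝ] (Fin m → ℝ)) (hP : Function.Surjective P)
    (K : PointedCone ℝ (Fin n → ℝ)) (hint : (interior (K : Set (Fin n → ℝ))).Nonempty) :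
    interior (PointedCone.map P K : Set (Fin m → ℝ)) = P '' interior (K : Set (Fin n → ℝ)) := by
  have hopen : IsOpenMap P := LinearMap.isOpenMap_of_finiteDimensional P hP
  apply Set.Subset.antisymm
  · intro y hy
    obtain ⟨x₀, hx₀⟩ := hint
    have h1 : Tendsto (fun t : ℝ => y - t • P x₀) (𝓝[>] 0) (𝓝 (y - (0 : ℝ) • P x₀)) := by
      refine Tendsto.mono_left ?_ nhdsWithin_le_nhds
      exact (continuous_const.sub (continuous_id.smul continuous_const)).tendsto 0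
    rw [zero_smul, sub_zero] at h1
    have h2 := h1.eventually (isOpen_interior.mem_nhds hy)
    obtain ⟨t, ht, htpos⟩ := (h2.and self_mem_nhdsWithin).exists
    obtain ⟨x, hx, hxy⟩ := (mem_map' P K _).1 (interior_subset ht)
    refine ⟨t • x₀ + x, add_mem_interior K (smul_mem_interior K hx₀ htpos) hx, ?_⟩
    rw [map_add, hxy, map_smul]
    abel
  · refine interior_maximal ?_ (hopen _ isOpen_interior)
    rintro _ ⟨x, hx, rfl⟩
    exact (mem_map' P K _).2 ⟨x, interior_subset hx, rfl⟩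

/-- Lifting a compact set of the interior of the image to a rational polyhedral cone. -/
lemma lift_compact (P : (Fin n → ℝ) →ₗ[ℝ] (Fin m → ℝ)) (hP : Function.Surjective P)
    (K : PointedCone ℝ (Fin n → ℝ)) (C : Set (Fin m → ℝ)) (hC : IsCompact C)
    (hCK : C ⊆ P '' interior (K : Set (Fin n → ℝ))) :
    ∃ S : Finset (Fin n → ℚ), (∀ v ∈ S, ratVec v ∈ interior (K : Set (Fin n → ℝ))) ∧
      ∀ y ∈ C, ∃ x ∈ ratCone S, P x = y := by
  classical
  have hopen : IsOpenMap P := LinearMap.isOpenMap_of_finiteDimensional P hP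
  refine hC.induction_on (p := fun C => ∃ S : Finset (Fin n → ℚ),
      (∀ v ∈ S, ratVec v ∈ interior (K : Set (Fin n → ℝ))) ∧ ∀ y ∈ C, ∃ x ∈ ratCone S, P x = y)
      ?_ ?_ ?_ ?_
  · exact ⟨∅, by simp, by simp⟩
  · rintro s t hst ⟨S, h1, h2⟩
    exact ⟨S, h1, fun y hy => h2 y (hst hy)⟩
  · rintro s t ⟨S, h1, h2⟩ ⟨T, h3, h4⟩
    refine ⟨S ∪ T, fun v hv => ?_, ?_⟩
    · rcases Finset.mem_union.1 hv with h | h
      · exact h1 v h
      · exact h3 v h
    · rintro y (hy | hy)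
      · obtain ⟨x, hx, rfl⟩ := h2 y hy
        refine ⟨x, Submodule.span_mono (Set.image_mono ?_) hx, rfl⟩
        exact Finset.coe_subset.2 Finset.subset_union_left
      · obtain ⟨x, hx, rfl⟩ := h4 y hy
        refine ⟨x, Submodule.span_mono (Set.image_mono ?_) hx, rfl⟩
        exact Finset.coe_subset.2 Finset.subset_union_right
  · intro y hy
    obtain ⟨x, hx, rfl⟩ := hCK hy
    obtain ⟨S, hS1, hS2⟩ := exists_ratCone_nhds isOpen_interior hx
    refine ⟨P '' ratCone S, mem_nhdsWithin_of_mem_nhds (hopen.image_mem_nhds hS2), S, hS1, ?_⟩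
    rintro _ ⟨x', hx', rfl⟩
    exact ⟨x', hx', rfl⟩

end Pool.Agent.H68Cone
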