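import Pool.Agent.H68Cone.Step

/-!
The cone conjecture modulo the boundary classes.
-/

set_option autoImplicit false

namespace Pool.Agent.H68Cone

open Module Filter Topology Pool.Agent.H93Cone Pool.Agent.H55.Cone

variable {n k : ℕ}

/-- A nef class which lies in a cone of effective classes up to boundary classes becomes effective
after adding a multiple of the boundary. -/
lemma eff_of_sum (Eff : PointedCone ℝ (Fin n → ℝ)) (Δ : Fin k → Fin n → ℚ)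
    (hΔ : ∀ j, ratVec (Δ j) ∈ Eff) (f : Fin n → ℝ) (hf : f ∈ bspan Δ) :
    ∃ t : ℝ, 0 ≤ t ∧ f + t • ∑ j, ratVec (Δ j) ∈ Eff := by
  obtain ⟨b, hb⟩ := (Submodule.mem_span_range_iff_exists_fun ℝ).1 hf
  refine ⟨∑ j, |b j|, Finset.sum_nonneg fun j _ => abs_nonneg _, ?_⟩
  rw [← hb, Finset.smul_sum, ← Finset.sum_add_distrib]
  refine Submodule.sum_mem _ fun j _ => ?_
  rw [← add_smul]
  refine PointedCone.smul_mem _ ?_ (hΔ j)
  have h1 : |b j| ≤ ∑ j, |b j| :=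
    Finset.single_le_sum (f := fun j => |b j|) (fun j _ => abs_nonneg _) (Finset.mem_univ j)
  have h2 := neg_abs_le (b j)
  linarith

theorem reduction (Nef Eff : PointedCone ℝ (Fin n → ℝ)) (D : Set (Fin n → ℤ))
    (hample : (interior (Nef : Set (Fin n → ℝ))).Nonempty)
    (hEff : Eff = PointedCone.hull ℝ (intVec '' D))
    (hampleEff : interior (Nef : Set (Fin n → ℝ)) ⊆ (Eff : Set (Fin n → ℝ)))
    (hsal : ∀ x, x ∈ closure (Eff : Set (Fin n → ℝ)) → -x ∈ closure (Eff : Set (Fin n → ℝ)) →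
      x = 0)
    (G : Subgroup (GL (Fin n) ℤ))
    (hGNef : ∀ g ∈ G, ∀ x ∈ Nef, act g.val x ∈ Nef)
    (hGEff : ∀ g ∈ G, ∀ x ∈ Eff, act g.val x ∈ Eff)
    (Δ : Fin k → Fin n → ℚ) (hΔ : ∀ j, ratVec (Δ j) ∈ Eff)
    (hcone : ConeThm (Nef : Set (Fin n → ℝ)) Δ) :
    HasDomain G ((Nef : Set (Fin n → ℝ)) ∩ Eff) ↔
      (∀ v : Fin n → ℚ, ratVec v ∈ Nef → ∀ t : ℝ, 0 ≤ t →
        ratVec v + t • ∑ j, ratVec (Δ j) ∈ Eff → ratVec v ∈ Eff) ∧
      ∃ S : Finset (Fin n → ℚ), ratCone S ⊆ (Nef : Set (Fin n → ℝ)) ∩ Eff ∧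
        ∀ x ∈ interior (Nef : Set (Fin n → ℝ)), ∃ g ∈ G, ∃ y ∈ ratCone S,
          act g.val x - y ∈ bspan Δ := by
  classical
  obtain ⟨_, hB, hC, _⟩ := final Nef Eff D hample hEff hampleEff hsal G hGNef hGEff
  constructor
  · intro h
    refine ⟨fun v hv _ _ _ => ?_, ?_⟩
    · have h1 := (hC.1 h).2
      exact h1 (Submodule.subset_span ⟨hv, v, rfl⟩)
    · obtain ⟨S, hS1, hS2⟩ := hB.1 h
      refine ⟨S, hS1, fun x hx => ?_⟩
      obtain ⟨γ, hγ, y, hy, rfl⟩ := mem_translates.1 (hS2 hx)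
      refine ⟨γ⁻¹, G.inv_mem hγ, y, hy, ?_⟩
      rw [act_val_inv, sub_self]
      exact Submodule.zero_mem _
  · rintro ⟨ha, S, hS1, hS2⟩
    obtain ⟨S', hS'⟩ := step Nef Δ hcone S (fun v hv =>
      (hS1 (Submodule.subset_span ⟨v, hv, rfl⟩)).1)
    refine hB.2 ⟨S', ?_, ?_⟩
    · have hgen : ∀ v ∈ S', ratVec v ∈ Nef ∧ ratVec v ∈ Eff := by
        intro v hv
        obtain ⟨h1, y, hy, hvy⟩ := (hS' (ratVec v)).1 (Submodule.subset_span ⟨v, hv, rfl⟩)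
        obtain ⟨t, ht, hft⟩ := eff_of_sum Eff Δ hΔ _ hvy
        refine ⟨h1, ha v h1 t ht ?_⟩
        have e : ratVec v + t • ∑ j, ratVec (Δ j) =
            y + (ratVec v - y + t • ∑ j, ratVec (Δ j)) := by abel
        rw [e]
        exact Submodule.add_mem _ (hS1 hy).2 hft
      intro x hx
      have h1 : PointedCone.hull ℝ (ratVec '' (S' : Set (Fin n → ℚ))) ≤ Nef :=
        Submodule.span_le.2 (by rintro _ ⟨v, hv, rfl⟩; exact (hgen v hv).1)
      have h2 : PointedCone.hull ℝ (ratVec '' (S' : Set (Fin n → ℚ))) ≤ Eff :=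
        Submodule.span_le.2 (by rintro _ ⟨v, hv, rfl⟩; exact (hgen v hv).2)
      exact ⟨h1 hx, h2 hx⟩
    · intro x hx
      obtain ⟨g, hg, y, hy, hxy⟩ := hS2 x hx
      refine mem_translates.2 ⟨g⁻¹, G.inv_mem hg, act g.val x, ?_, act_val_inv _ _⟩
      exact (hS' _).2 ⟨hGNef g hg x (interior_subset hx), y, hy, hxy⟩

end Pool.Agent.H68Cone
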