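import Pool.Agent.H68Cone.CoverAll
import Pool.Agent.H68Cone.Rays
import Pool.Agent.H68Cone.Reduction

/-!
The cone conjecture for pairs with an abelian group of automorphisms of the largest possible rank.
-/

set_option autoImplicit false

namespace Pool.Agent.H68Cone

open Module Filter Topology Pool.Agent.H93Cone Pool.Agent.H55.Cone Pool.Agent.H31Cone

variable {n k : ℕ}

/-- The real span of the boundary classes. -/
lemma rspan_eq (Δ : Fin k → Fin n → ℚ) :
    rspan (Submodule.span ℚ (Set.range Δ)) = bspan Δ := by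
  apply le_antisymm
  · refine Submodule.span_le.2 ?_
    rintro _ ⟨w, hw, rfl⟩
    have hw' : w ∈ Submodule.span ℚ (Set.range Δ) := hw
    obtain ⟨b, hb⟩ := (Submodule.mem_span_range_iff_exists_fun ℚ).1 hw'
    show ratVec w ∈ bspan Δ
    rw [← hb, ratVec_sum']
    refine Submodule.sum_mem _ fun j _ => ?_
    rw [ratVec_smul]
    exact Submodule.smul_mem _ _ (Submodule.subset_span ⟨j, rfl⟩)
  · refine Submodule.span_le.2 ?_
    rintro _ ⟨j, rfl⟩
    exact Submodule.subset_span ⟨Δ j, Submodule.subset_span ⟨j, rfl⟩, rfl⟩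

/-- A rational vector in the real span of a rational subspace lies in the rational subspace. -/
lemma mem_of_rspan (W : Submodule ℚ (Fin n → ℚ)) (v : Fin n → ℚ) (hv : ratVec v ∈ rspan W) :
    v ∈ W := by
  obtain ⟨m, P, _, hker, hkerR, _⟩ := exists_quot_real W
  rw [← hker]
  have h1 := (hkerR _).2 hv
  rw [ratVec_qmap] at h1
  apply ratVec_injective
  rw [h1]
  funext i
  simp [ratVec]

/-- If the span of the boundary classes has dimension at most one, then nef classes in the
span are effective. -/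
lemma eff_of_rank_one (Nef Eff : PointedCone ℝ (Fin n → ℝ))
    (hsal : ∀ x, x ∈ closure (Eff : Set (Fin n → ℝ)) → -x ∈ closure (Eff : Set (Fin n → ℝ)) →
      x = 0)
    (hNE : (Nef : Set (Fin n → ℝ)) ⊆ closure (Eff : Set (Fin n → ℝ)))
    (Δ : Fin k → Fin n → ℚ) (hΔ : ∀ j, ratVec (Δ j) ∈ Eff)
    (h1 : finrank ℚ (Submodule.span ℚ (Set.range Δ)) ≤ 1) :
    ∀ v ∈ Submodule.span ℚ (Set.range Δ), ratVec v ∈ Nef → ratVec v ∈ Eff := by
  classical
  intro v hv hvN
  by_cases hall : ∀ j, Δ j = 0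
  · have h2 : Submodule.span ℚ (Set.range Δ) = ⊥ := by
      rw [Submodule.span_eq_bot]
      rintro _ ⟨j, rfl⟩
      exact hall j
    rw [h2, Submodule.mem_bot] at hv
    rw [hv]
    have : ratVec (0 : Fin n → ℚ) = 0 := by funext i; simp [ratVec]
    rw [this]
    exact Submodule.zero_mem _
  · push Not at hall
    obtain ⟨j, hj⟩ := hall
    have hjm : Δ j ∈ Submodule.span ℚ (Set.range Δ) := Submodule.subset_span ⟨j, rfl⟩
    obtain ⟨w, hw⟩ := finrank_le_one_iff.1 h1
    obtain ⟨a, ha⟩ := hw ⟨v, hv⟩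
    obtain ⟨b, hb⟩ := hw ⟨Δ j, hjm⟩
    have ha' : a • (w : Fin n → ℚ) = v := congrArg Subtype.val ha
    have hb' : b • (w : Fin n → ℚ) = Δ j := congrArg Subtype.val hb
    have hb0 : b ≠ 0 := by
      rintro rfl
      rw [zero_smul] at hb'
      exact hj hb'.symm
    have hvj : v = (a / b) • Δ j := by
      rw [← hb', smul_smul, div_mul_cancel₀ _ hb0, ha']
    rcases le_or_gt 0 (a / b) with h | h
    · rw [hvj, ratVec_smul]
      exact PointedCone.smul_mem _ (by exact_mod_cast h) (hΔ j)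
    · exfalso
      have h3 : ratVec (Δ j) ∈ closure (Eff : Set (Fin n → ℝ)) := subset_closure (hΔ j)
      have h4 : -ratVec (Δ j) ∈ closure (Eff : Set (Fin n → ℝ)) := by
        apply hNE
        have h5 : -ratVec (Δ j) = (-((a / b : ℚ) : ℝ))⁻¹ • ratVec v := by
          rw [hvj, ratVec_smul, smul_smul, inv_neg, neg_mul, inv_mul_cancel₀, neg_smul, one_smul]
          exact_mod_cast h.ne
        rw [h5]
        refine PointedCone.smul_mem _ (inv_nonneg.2 ?_) hvN
        have : ((a / b : ℚ) : ℝ) < 0 := by exact_mod_cast h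
        linarith
      have h6 := hsal _ h3 h4
      apply hj
      apply ratVec_injective
      rw [h6]
      funext i
      simp [ratVec]

theorem main (Nef Eff : PointedCone ℝ (Fin n → ℝ)) (D : Set (Fin n → ℤ))
    (hNef : IsClosed (Nef : Set (Fin n → ℝ)))
    (hample : (interior (Nef : Set (Fin n → ℝ))).Nonempty)
    (hEff : Eff = PointedCone.hull ℝ (intVec '' D))
    (hampleEff : interior (Nef : Set (Fin n → ℝ)) ⊆ (Eff : Set (Fin n → ℝ)))
    (hsal : ∀ x, x ∈ closure (Eff : Set (Fin n → ℝ)) → -x ∈ closure (Eff : Set (Fin n → ℝ)) →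
      x = 0)
    (G : Subgroup (GL (Fin n) ℤ))
    (hGNef : ∀ g ∈ G, ∀ x ∈ Nef, act g.val x ∈ Nef)
    (hGEff : ∀ g ∈ G, ∀ x ∈ Eff, act g.val x ∈ Eff)
    (Δ : Fin k → Fin n → ℚ) (hΔ : ∀ j, ratVec (Δ j) ∈ Eff)
    (hGΔ : ∀ g ∈ G, ∀ j, ∃ j', act g.val (ratVec (Δ j)) = ratVec (Δ j'))
    (hrays : BoundedRays (Nef : Set (Fin n → ℝ)) Δ)
    (hbpf : ∀ v : Fin n → ℚ, ratVec v ∈ Nef → ∀ t : ℝ, 0 ≤ t →
      ratVec v + t • ∑ j, ratVec (Δ j) ∈ interior (Eff : Set (Fin n → ℝ)) → ratVec v ∈ Eff)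
    (hF : 2 ≤ finrank ℚ (Submodule.span ℚ (Set.range Δ)) →
      ∀ v ∈ Submodule.span ℚ (Set.range Δ), ratVec v ∈ Nef → ratVec v ∈ Eff)
    (φ : Multiplicative (Fin (n - 1 - finrank ℚ (Submodule.span ℚ (Set.range Δ))) → ℤ) →* G)
    (hφ : Function.Injective φ) :
    HasDomain G ((Nef : Set (Fin n → ℝ)) ∩ Eff) := by
  classical
  obtain ⟨_, hB, _, _⟩ := final Nef Eff D hample hEff hampleEff hsal G hGNef hGEff
  have hNE : (Nef : Set (Fin n → ℝ)) ⊆ closure (Eff : Set (Fin n → ℝ)) := by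
    intro x hx
    have h1 : closure (interior (Nef : Set (Fin n → ℝ))) = closure (Nef : Set (Fin n → ℝ)) :=
      (PointedCone.convex Nef).closure_interior_eq_closure_of_nonempty_interior hample
    have h2 : x ∈ closure (interior (Nef : Set (Fin n → ℝ))) := by
      rw [h1]; exact subset_closure hx
    exact closure_mono (fun y hy => hampleEff hy) h2
  have hsalN : ∀ x, x ∈ Nef → -x ∈ Nef → x = 0 := fun x h1 h2 => hsal x (hNE h1) (hNE h2)
  have hF' : ∀ v ∈ Submodule.span ℚ (Set.range Δ), ratVec v ∈ Nef → ratVec v ∈ Eff := by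
    rcases Nat.lt_or_ge (finrank ℚ (Submodule.span ℚ (Set.range Δ))) 2 with h | h
    · exact eff_of_rank_one Nef Eff hsal hNE Δ hΔ (by omega)
    · exact hF h
  -- the representation
  let ψ : (Fin (n - 1 - finrank ℚ (Submodule.span ℚ (Set.range Δ))) → ℤ) →
      Matrix (Fin n) (Fin n) ℤ :=
    fun z => (φ (Multiplicative.ofAdd z) : GL (Fin n) ℤ).val
  have hrep : IsRep ψ := by
    constructor
    · show (φ (Multiplicative.ofAdd 0) : GL (Fin n) ℤ).val = 1
      rw [ofAdd_zero, map_one]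
      rfl
    · intro z w
      show (φ (Multiplicative.ofAdd (z + w)) : GL (Fin n) ℤ).val = _
      rw [ofAdd_add, map_mul]
      rfl
  have hinj : Function.Injective ψ := by
    intro z w hzw
    have h1 : (φ (Multiplicative.ofAdd z) : GL (Fin n) ℤ) = φ (Multiplicative.ofAdd w) :=
      Units.ext hzw
    have h2 := hφ (Subtype.ext h1)
    exact Multiplicative.ofAdd.injective h2
  have hperm : ∀ z j, ∃ j', qa (ψ z) (Δ j) = Δ j' := by
    intro z j
    obtain ⟨j', hj'⟩ := hGΔ _ (φ (Multiplicative.ofAdd z)).2 j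
    refine ⟨j', ratVec_injective ?_⟩
    rw [ratVec_qa]
    exact hj'
  obtain ⟨S, hS1, hS2⟩ := cover_perm hrep hinj Nef hNef hsalN hample
    (fun z y hy => hGNef _ (φ (Multiplicative.ofAdd z)).2 y hy) Δ hperm rfl
  rw [rspan_eq] at hS2
  obtain ⟨S', hS'⟩ := step Nef Δ (coneThm_of_rays Nef hNef hample Δ hrays) S
    (fun v hv => interior_subset (hS1 v hv))
  have hopen : interior (Nef : Set (Fin n → ℝ)) ⊆ interior (Eff : Set (Fin n → ℝ)) :=
    interior_maximal hampleEff isOpen_interior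
  have hcone : ∀ x ∈ ratCone S, x ∈ interior (Nef : Set (Fin n → ℝ)) ∨ x = 0 := by
    intro x hx
    unfold ratCone at hx
    induction hx using Submodule.span_induction with
    | mem y hy =>
      obtain ⟨v, hv, rfl⟩ := hy
      exact Or.inl (hS1 v (Finset.mem_coe.1 hv))
    | zero => exact Or.inr rfl
    | add y z _ _ hy hz =>
      rcases hy with hy | rfl
      · rcases hz with hz | rfl
        · exact Or.inl (add_mem_interior Nef hy (interior_subset hz))
        · rw [add_zero]; exact Or.inl hy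
      · rw [zero_add]; exact hz
    | smul a y _ hy =>
      have e : a • y = (a : ℝ) • y := rfl
      rcases hy with hy | rfl
      · rcases eq_or_lt_of_le a.2 with h0 | hpos
        · right; rw [e, ← h0, zero_smul]
        · left; rw [e]; exact smul_mem_interior Nef hy hpos
      · right; exact smul_zero a
  have hgen : ∀ v ∈ S', ratVec v ∈ Nef ∧ ratVec v ∈ Eff := by
    intro v hv
    obtain ⟨h1, y, hy, hvy⟩ := (hS' (ratVec v)).1 (Submodule.subset_span ⟨v, hv, rfl⟩)
    refine ⟨h1, ?_⟩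
    rcases hcone y hy with hyi | rfl
    · obtain ⟨t, ht, hft⟩ := eff_of_sum Eff Δ hΔ _ hvy
      refine hbpf v h1 t ht ?_
      have e : ratVec v + t • ∑ j, ratVec (Δ j) =
          y + (ratVec v - y + t • ∑ j, ratVec (Δ j)) := by abel
      rw [e]
      exact add_mem_interior Eff (hopen hyi) hft
    · rw [sub_zero, ← rspan_eq] at hvy
      exact hF' v (mem_of_rspan _ v hvy) h1
  refine hB.2 ⟨S', ?_, ?_⟩
  · intro x hx
    have h1 : PointedCone.hull ℝ (ratVec '' (S' : Set (Fin n → ℚ))) ≤ Nef :=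
      Submodule.span_le.2 (by rintro _ ⟨v, hv, rfl⟩; exact (hgen v hv).1)
    have h2 : PointedCone.hull ℝ (ratVec '' (S' : Set (Fin n → ℚ))) ≤ Eff :=
      Submodule.span_le.2 (by rintro _ ⟨v, hv, rfl⟩; exact (hgen v hv).2)
    exact ⟨h1 hx, h2 hx⟩
  · intro x hx
    obtain ⟨z, y, hy, hxy⟩ := hS2 x hx
    have hg := (φ (Multiplicative.ofAdd z)).2
    refine mem_translates.2 ⟨(φ (Multiplicative.ofAdd z) : GL (Fin n) ℤ)⁻¹, G.inv_mem hg,
      act (ψ z) x, ?_, act_val_inv _ _⟩
    exact (hS' _).2 ⟨hGNef _ hg x (interior_subset hx), y, hy, hxy⟩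

end Pool.Agent.H68Cone
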