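import Pool.Agent.H68Cone.Step

/-!
The quotient of a lattice by a rational subspace.
-/

set_option autoImplicit false

namespace Pool.Agent.H68Cone

open Module Filter Topology Pool.Agent.H93Cone Pool.Agent.H55.Cone

variable {n : ℕ}

/-- The rational linear map of an integral matrix. -/
def qmap {m n : ℕ} (P : Matrix (Fin m) (Fin n) ℤ) : (Fin n → ℚ) →ₗ[ℚ] (Fin m → ℚ) :=
  Matrix.mulVecLin (P.map (Int.cast : ℤ → ℚ))

/-- The real linear map of an integral matrix. -/
def rmap {m n : ℕ} (P : Matrix (Fin m) (Fin n) ℤ) : (Fin n → ℝ) →ₗ[ℝ] (Fin m → ℝ) :=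
  Matrix.mulVecLin (P.map (Int.cast : ℤ → ℝ))

lemma qmap_apply {m n : ℕ} (P : Matrix (Fin m) (Fin n) ℤ) (v : Fin n → ℚ) (i : Fin m) :
    qmap P v i = ∑ j, (P i j : ℚ) * v j := rfl

lemma rmap_apply {m n : ℕ} (P : Matrix (Fin m) (Fin n) ℤ) (v : Fin n → ℝ) (i : Fin m) :
    rmap P v i = ∑ j, (P i j : ℝ) * v j := rfl

lemma ratVec_qmap {m n : ℕ} (P : Matrix (Fin m) (Fin n) ℤ) (v : Fin n → ℚ) :
    rmap P (ratVec v) = ratVec (qmap P v) := by
  funext i
  rw [rmap_apply]
  show _ = ((qmap P v i : ℚ) : ℝ)
  rw [qmap_apply]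
  push_cast
  rfl

/-- Every rational vector has an integral multiple. -/
lemma exists_int_vec (q : Fin n → ℚ) :
    ∃ N : ℕ, 0 < N ∧ ∃ p : Fin n → ℤ, ∀ j, (N : ℚ) * q j = p j := by
  obtain ⟨N, hN, w, hw⟩ := exists_den (fun _ : Fin 1 => q)
  exact ⟨N, hN, w 0, fun j => hw 0 j⟩

theorem exists_quot (W : Submodule ℚ (Fin n → ℚ)) :
    ∃ (m : ℕ) (P : Matrix (Fin m) (Fin n) ℤ), m + finrank ℚ W = n ∧
      (∀ v : Fin n → ℚ, qmap P v = 0 ↔ v ∈ W) ∧ Function.Surjective (qmap P) ∧
      ∀ g : Matrix (Fin n) (Fin n) ℤ, (∀ w ∈ W, qa g w ∈ W) →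
        ∃ h : Matrix (Fin m) (Fin m) ℤ, P * g = h * P := by
  classical
  let M : Submodule ℤ (Fin n → ℤ) :=
    { carrier := {p | ∀ w ∈ W, ∑ j, (p j : ℚ) * w j = 0}
      add_mem' := by
        intro a b ha hb w hw
        have h1 := ha w hw
        have h2 := hb w hw
        have h3 : ∑ j, ((a + b) j : ℚ) * w j = ∑ j, (a j : ℚ) * w j + ∑ j, (b j : ℚ) * w j := by
          rw [← Finset.sum_add_distrib]
          refine Finset.sum_congr rfl fun j _ => ?_
          rw [Pi.add_apply]; push_cast; ring
        rw [h3, h1, h2, add_zero]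
      zero_mem' := by
        intro w _
        simp
      smul_mem' := by
        intro c a ha w hw
        have h1 := ha w hw
        have h3 : ∑ j, ((c • a) j : ℚ) * w j = (c : ℚ) * ∑ j, (a j : ℚ) * w j := by
          rw [Finset.mul_sum]
          refine Finset.sum_congr rfl fun j _ => ?_
          rw [Pi.smul_apply, smul_eq_mul]; push_cast; ring
        rw [h3, h1, mul_zero] }
  have hM : ∀ p, p ∈ M ↔ ∀ w ∈ W, ∑ j, (p j : ℚ) * w j = 0 := fun p => Iff.rfl
  let b := Module.finBasis ℤ M
  let m := finrank ℤ M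
  let P : Matrix (Fin m) (Fin n) ℤ := fun i => (b i : Fin n → ℤ)
  -- kernel
  have hker : ∀ v : Fin n → ℚ, qmap P v = 0 ↔ v ∈ W := by
    intro v
    constructor
    · intro hv
      by_contra hvW
      obtain ⟨f, hf0, hfW⟩ := Submodule.exists_le_ker_of_notMem hvW
      let q : Fin n → ℚ := fun i => f (Pi.single i 1)
      have hfq : ∀ u, f u = ∑ j, q j * u j := by
        intro u
        have hu : u = ∑ j, u j • (Pi.single j (1 : ℚ) : Fin n → ℚ) := by
          funext i
          simp [Finset.sum_apply, Pi.single_apply]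
        conv_lhs => rw [hu]
        rw [map_sum]
        refine Finset.sum_congr rfl fun j _ => ?_
        rw [map_smul, smul_eq_mul, mul_comm]
      obtain ⟨N, hN, p, hp⟩ := exists_int_vec q
      have hpM : p ∈ M := by
        rw [hM]
        intro w hw
        have h1 : ∑ j, (p j : ℚ) * w j = (N : ℚ) * f w := by
          rw [hfq, Finset.mul_sum]
          refine Finset.sum_congr rfl fun j _ => ?_
          rw [← hp j]; ring
        rw [h1, LinearMap.mem_ker.1 (hfW hw), mul_zero]
      have hpb : p = ∑ i, b.repr ⟨p, hpM⟩ i • (b i : Fin n → ℤ) := by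
        have h1 := congrArg (Subtype.val) (b.sum_repr ⟨p, hpM⟩)
        rw [Submodule.coe_sum] at h1
        exact h1.symm
      have hpv : ∑ j, (p j : ℚ) * v j = 0 := by
        have h1 : ∀ j, (p j : ℚ) = ∑ i, (b.repr ⟨p, hpM⟩ i : ℚ) * (P i j : ℚ) := by
          intro j
          conv_lhs => rw [hpb]
          rw [Finset.sum_apply]
          push_cast
          refine Finset.sum_congr rfl fun i _ => ?_
          rw [Pi.smul_apply, smul_eq_mul]
          push_cast
          rfl
        simp only [h1, Finset.sum_mul]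
        rw [Finset.sum_comm]
        refine Finset.sum_eq_zero fun i _ => ?_
        have h2 := congrFun hv i
        rw [qmap_apply] at h2
        have h3 : ∑ j, (b.repr ⟨p, hpM⟩ i : ℚ) * (P i j : ℚ) * v j =
            (b.repr ⟨p, hpM⟩ i : ℚ) * ∑ j, (P i j : ℚ) * v j := by
          rw [Finset.mul_sum]
          refine Finset.sum_congr rfl fun j _ => by ring
        rw [h3, h2]
        exact mul_zero _
      have h4 : (N : ℚ) * f v = 0 := by
        rw [hfq, Finset.mul_sum, ← hpv]
        refine Finset.sum_congr rfl fun j _ => ?_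
        rw [← hp j]; ring
      rcases mul_eq_zero.1 h4 with h5 | h5
      · exact absurd h5 (by exact_mod_cast hN.ne')
      · exact hf0 h5
    · intro hv
      funext i
      rw [qmap_apply]
      exact (hM _).1 (b i).2 v hv
  -- independence of the rows
  have hind : LinearIndependent ℚ (P.map (Int.cast : ℤ → ℚ)).row := by
    let j : M →ₗ[ℤ] (Fin n → ℚ) :=
      { toFun := fun p i => ((p : Fin n → ℤ) i : ℚ)
        map_add' := fun a c => by funext i; simp
        map_smul' := fun c a => by funext i; simp }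
    have hj : LinearMap.ker j = ⊥ := by
      rw [LinearMap.ker_eq_bot']
      intro a ha
      apply Subtype.ext
      funext i
      have := congrFun ha i
      have h2 : (((a : Fin n → ℤ) i : ℤ) : ℚ) = 0 := this
      exact_mod_cast h2
    have h1 : LinearIndependent ℤ (j ∘ b) := b.linearIndependent.map' j hj
    have h2 := (LinearIndependent.iff_fractionRing ℤ ℚ).1 h1
    exact h2
  have hrank : (P.map (Int.cast : ℤ → ℚ)).rank = m := by
    rw [hind.rank_matrix, Fintype.card_fin]
  have hrk : finrank ℚ (LinearMap.range (qmap P)) = m := hrank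
  have hsurj : Function.Surjective (qmap P) := by
    rw [← LinearMap.range_eq_top]
    apply Submodule.eq_top_of_finrank_eq
    rw [hrk, finrank_fintype_fun_eq_card, Fintype.card_fin]
  have hkerW : LinearMap.ker (qmap P) = W := by
    ext v
    rw [LinearMap.mem_ker, hker]
  refine ⟨m, P, ?_, hker, hsurj, ?_⟩
  · have h1 := LinearMap.finrank_range_add_finrank_ker (qmap P)
    rw [hrk, hkerW, finrank_fintype_fun_eq_card, Fintype.card_fin] at h1
    exact h1
  · intro g hg
    have hmem : ∀ i, Matrix.vecMul (b i : Fin n → ℤ) g ∈ M := by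
      intro i
      rw [hM]
      intro w hw
      have h1 := (hM _).1 (b i).2 (qa g w) (hg w hw)
      rw [← h1]
      have h2 : ∀ l, qa g w l = ∑ j, (g l j : ℚ) * w j := fun l => rfl
      simp only [Matrix.vecMul, dotProduct, h2, Finset.mul_sum]
      push_cast
      simp only [Finset.sum_mul]
      rw [Finset.sum_comm]
      refine Finset.sum_congr rfl fun l _ => Finset.sum_congr rfl fun j _ => ?_
      ring
    refine ⟨fun i j => b.repr ⟨_, hmem i⟩ j, ?_⟩
    ext i l
    have h1 := congrArg (fun p : M => (p : Fin n → ℤ) l) (b.sum_repr ⟨_, hmem i⟩)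
    simp only at h1
    rw [Submodule.coe_sum, Finset.sum_apply] at h1
    exact h1.symm

/-- The real subspace spanned by a rational subspace. -/
def rspan (W : Submodule ℚ (Fin n → ℚ)) : Submodule ℝ (Fin n → ℝ) :=
  Submodule.span ℝ (ratVec '' (W : Set (Fin n → ℚ)))

lemma ratVec_sum' {ι : Type*} (s : Finset ι) (f : ι → Fin n → ℚ) :
    ratVec (∑ i ∈ s, f i) = ∑ i ∈ s, ratVec (f i) := by
  funext j
  simp [ratVec, Finset.sum_apply]

theorem exists_quot_real (W : Submodule ℚ (Fin n → ℚ)) :
    ∃ (m : ℕ) (P : Matrix (Fin m) (Fin n) ℤ), m + finrank ℚ W = n ∧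
      (∀ v : Fin n → ℚ, qmap P v = 0 ↔ v ∈ W) ∧
      (∀ x : Fin n → ℝ, rmap P x = 0 ↔ x ∈ rspan W) ∧
      Function.Surjective (qmap P) ∧ Function.Surjective (rmap P) ∧
      (∀ g : Matrix (Fin n) (Fin n) ℤ, (∀ w ∈ W, qa g w ∈ W) →
        ∃ h : Matrix (Fin m) (Fin m) ℤ, P * g = h * P) ∧
      ∀ h h' : Matrix (Fin m) (Fin m) ℤ, h * P = h' * P → h = h' := by
  classical
  obtain ⟨m, P, hm, hker, hsurj, hg⟩ := exists_quot W
  choose R hR using hsurj
  -- a right inverse on the standard basis
  let e : Fin m → (Fin n → ℚ) := fun i => R (Pi.single i 1)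
  have he : ∀ i, qmap P (e i) = Pi.single i 1 := fun i => hR _
  have hsurjR : ∀ y : Fin m → ℝ, rmap P (∑ i, y i • ratVec (e i)) = y := by
    intro y
    rw [map_sum]
    have h1 : ∀ i, rmap P (y i • ratVec (e i)) = y i • (Pi.single i (1 : ℝ) : Fin m → ℝ) := by
      intro i
      rw [map_smul, ratVec_qmap, he]
      congr 1
      funext j
      by_cases hj : j = i
      · subst hj; simp [ratVec]
      · simp [ratVec, hj]
    rw [Finset.sum_congr rfl fun i _ => h1 i]
    funext j
    simp [Finset.sum_apply, Pi.single_apply]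
  refine ⟨m, P, hm, hker, fun x => ⟨fun hx => ?_, fun hx => ?_⟩, fun y => ⟨R y, hR y⟩,
    fun y => ⟨_, hsurjR y⟩, hg, ?_⟩
  · -- x = ∑ x_j (e_j - R P e_j)
    let u : Fin n → (Fin n → ℚ) := fun j =>
      Pi.single j 1 - ∑ i, (qmap P (Pi.single j 1) i) • e i
    have hu : ∀ j, u j ∈ W := by
      intro j
      rw [← hker, map_sub, map_sum, sub_eq_zero]
      funext l
      rw [Finset.sum_apply]
      have h1 : ∀ i, (qmap P ((qmap P (Pi.single j 1) i) • e i)) l =
          if l = i then qmap P (Pi.single j 1) i else 0 := by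
        intro i
        rw [map_smul, he, Pi.smul_apply, Pi.single_apply, smul_eq_mul]
        split_ifs <;> simp
      rw [Finset.sum_congr rfl fun i _ => h1 i]
      simp
    have hx2 : x = ∑ j, x j • ratVec (u j) := by
      have h1 : ∀ j, ratVec (u j) = (Pi.single j (1 : ℝ) : Fin n → ℝ) -
          ∑ i, ((P i j : ℤ) : ℝ) • ratVec (e i) := by
        intro j
        rw [ratVec_sub, ratVec_sum']
        congr 1
        · funext l
          by_cases hl : l = j
          · subst hl; simp [ratVec]
          · simp [ratVec, hl]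
        · refine Finset.sum_congr rfl fun i _ => ?_
          rw [ratVec_smul]
          congr 1
          rw [qmap_apply]
          simp [Pi.single_apply]
      have h2 : ∑ j, x j • (Pi.single j (1 : ℝ) : Fin n → ℝ) = x := by
        funext l
        simp [Finset.sum_apply, Pi.single_apply]
      have h3 : ∑ j, x j • ∑ i, ((P i j : ℤ) : ℝ) • ratVec (e i) = 0 := by
        have h4 : ∀ i, ∑ j, ((P i j : ℤ) : ℝ) * x j = 0 := by
          intro i
          have := congrFun hx i
          rwa [rmap_apply] at this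
        calc ∑ j, x j • ∑ i, ((P i j : ℤ) : ℝ) • ratVec (e i)
            = ∑ j, ∑ i, (((P i j : ℤ) : ℝ) * x j) • ratVec (e i) := by
              refine Finset.sum_congr rfl fun j _ => ?_
              rw [Finset.smul_sum]
              refine Finset.sum_congr rfl fun i _ => ?_
              rw [smul_smul, mul_comm]
          _ = ∑ i, (∑ j, ((P i j : ℤ) : ℝ) * x j) • ratVec (e i) := by
              rw [Finset.sum_comm]
              refine Finset.sum_congr rfl fun i _ => ?_
              rw [Finset.sum_smul]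
          _ = 0 := by
              refine Finset.sum_eq_zero fun i _ => ?_
              rw [h4 i, zero_smul]
      simp only [h1, smul_sub, Finset.sum_sub_distrib]
      rw [h2, h3, sub_zero]
    rw [hx2]
    exact Submodule.sum_mem _ fun j _ => Submodule.smul_mem _ _
      (Submodule.subset_span ⟨u j, hu j, rfl⟩)
  · have h1 : rspan W ≤ LinearMap.ker (rmap P) := by
      refine Submodule.span_le.2 ?_
      rintro _ ⟨w, hw, rfl⟩
      show rmap P (ratVec w) = 0
      rw [ratVec_qmap, (hker w).2 hw]
      funext i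
      simp [ratVec]
    exact h1 hx
  · intro h h' hh
    have h1 : ∀ v : Fin n → ℚ, (h.map (Int.cast : ℤ → ℚ)).mulVec (qmap P v) =
        (h'.map (Int.cast : ℤ → ℚ)).mulVec (qmap P v) := by
      intro v
      have h2 : ∀ k : Matrix (Fin m) (Fin m) ℤ, (k.map (Int.cast : ℤ → ℚ)).mulVec (qmap P v) =
          ((k * P).map (Int.cast : ℤ → ℚ)).mulVec v := by
        intro k
        show (k.map (Int.cast : ℤ → ℚ)).mulVec ((P.map (Int.cast : ℤ → ℚ)).mulVec v) = _
        rw [Matrix.mulVec_mulVec]
        congr 1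
        have := (Matrix.map_mul (L := k) (M := P) (f := Int.castRingHom ℚ)).symm
        exact this
      rw [h2, h2, hh]
    ext i j
    have h2 := h1 (e j)
    rw [he j] at h2
    have h3 := congrFun h2 i
    rw [Matrix.mulVec_single_one, Matrix.mulVec_single_one] at h3
    have h4 : ((h i j : ℤ) : ℚ) = ((h' i j : ℤ) : ℚ) := h3
    exact_mod_cast h4

end Pool.Agent.H68Cone
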