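import Pool.Agent.H55.Cone.Final

/-!
The finiteness step: over a rational polyhedral cone spanned by nef classes the nef cone is
rational polyhedral modulo the span of the boundary classes.
-/

set_option autoImplicit false

namespace Pool.Agent.H68Cone

open Module Filter Topology Pool.Agent.H93Cone Pool.Agent.H55.Cone

variable {n k : ℕ}

/-- The real vector space spanned by the vectors `Δ j`. -/
def bspan (Δ : Fin k → Fin n → ℚ) : Submodule ℝ (Fin n → ℝ) :=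
  Submodule.span ℝ (Set.range fun j => ratVec (Δ j))

/-- The cone theorem. -/
def ConeThm (Nef : Set (Fin n → ℝ)) (Δ : Fin k → Fin n → ℚ) : Prop :=
  ∃ (C : Set (Fin n → ℤ)) (Θ : Set (Fin n → ℝ)) (B : ℝ),
    (∀ c ∈ C, ∀ j, |intVec c ⬝ᵥ ratVec (Δ j)| ≤ B) ∧
    (∀ θ ∈ Θ, ∀ j, θ ⬝ᵥ ratVec (Δ j) = 0) ∧
    Nef = {y | (∀ c ∈ C, 0 ≤ intVec c ⬝ᵥ y) ∧ ∀ θ ∈ Θ, 0 ≤ θ ⬝ᵥ y}

/-- Dickson's lemma. -/
lemma dickson {α ι : Type*} [Finite ι] (f : α → ι → ℕ) (A : Set α) :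
    ∃ T : Finset α, (T : Set α) ⊆ A ∧ ∀ a ∈ A, ∃ b ∈ T, f b ≤ f a := by
  classical
  rcases isEmpty_or_nonempty α with hα | hα
  · exact ⟨∅, by simp, fun a _ => hα.elim a⟩
  set M : Set (ι → ℕ) := {v | Minimal (· ∈ f '' A) v} with hM
  have hfin : M.Finite := by
    refine IsAntichain.finite_of_partiallyWellOrderedOn (r := (· ≤ ·)) ?_
      (Set.isPWO_of_wellQuasiOrderedLE _)
    exact setOfPred_minimal_antichain _
  have hex : ∀ v ∈ M, ∃ a ∈ A, f a = v := by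
    intro v hv
    exact hv.prop
  choose! g hgA hgf using hex
  refine ⟨hfin.toFinset.image g, ?_, ?_⟩
  · intro a ha
    obtain ⟨v, hv, rfl⟩ := Finset.mem_image.1 (Finset.mem_coe.1 ha)
    exact hgA v (hfin.mem_toFinset.1 hv)
  · intro a ha
    have hpwo : (f '' A).IsPWO := Set.isPWO_of_wellQuasiOrderedLE _
    obtain ⟨v, hva, hv⟩ := hpwo.exists_le_minimal (Set.mem_image_of_mem f ha)
    exact ⟨g v, Finset.mem_image_of_mem g (hfin.mem_toFinset.2 hv), by rw [hgf v hv]; exact hva⟩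

/-- Common denominators. -/
lemma exists_den {ι : Type*} [Finite ι] (v : ι → Fin n → ℚ) :
    ∃ N : ℕ, 0 < N ∧ ∃ w : ι → Fin n → ℤ, ∀ i j, (N : ℚ) * v i j = w i j := by
  classical
  have := Fintype.ofFinite ι
  refine ⟨∏ i, ∏ j, (v i j).den, Finset.prod_pos fun i _ => Finset.prod_pos fun j _ => (v i j).den_pos,
    fun i j => (∏ i' ∈ Finset.univ.erase i, ∏ j', (v i' j').den) *
      ((∏ j' ∈ Finset.univ.erase j, (v i j').den : ℕ) : ℤ) * (v i j).num, fun i j => ?_⟩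
  have h1 := Finset.mul_prod_erase Finset.univ (fun i' => ∏ j', (v i' j').den) (Finset.mem_univ i)
  have h2 := Finset.mul_prod_erase Finset.univ (fun j' => (v i j').den) (Finset.mem_univ j)
  have h3 : ((v i j).den : ℚ) * v i j = (v i j).num := by
    rw [mul_comm]; exact Rat.mul_den_eq_num _
  rw [← h1, ← h2]
  push_cast
  have h4 : ((v i j).den : ℚ) * (∏ x ∈ Finset.univ.erase j, ((v i x).den : ℚ)) *
      (∏ x ∈ Finset.univ.erase i, ∏ x_1, ((v x x_1).den : ℚ)) * v i j =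
      (∏ x ∈ Finset.univ.erase j, ((v i x).den : ℚ)) *
      (∏ x ∈ Finset.univ.erase i, ∏ x_1, ((v x x_1).den : ℚ)) * (((v i j).den : ℚ) * v i j) := by
    ring
  rw [h4, h3]
  ring

/-- The cone spanned by `S` and the subspace spanned by `Δ`. -/
lemma mem_sum_iff (S : Finset (Fin n → ℚ)) (Δ : Fin k → Fin n → ℚ) (x : Fin n → ℝ) :
    (∃ y ∈ ratCone S, x - y ∈ bspan Δ) ↔
      ∃ (c : (Fin n → ℚ) → ℝ) (b : Fin k → ℝ), (∀ s, 0 ≤ c s) ∧
        x = ∑ s ∈ S, c s • ratVec s + ∑ j, b j • ratVec (Δ j) := by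
  constructor
  · rintro ⟨y, hy, hxy⟩
    obtain ⟨c, hc, rfl⟩ := (mem_hull_iff S y).1 hy
    obtain ⟨b, hb⟩ := (Submodule.mem_span_range_iff_exists_fun ℝ).1 hxy
    exact ⟨c, b, hc, by rw [hb]; abel⟩
  · rintro ⟨c, b, hc, rfl⟩
    refine ⟨_, (mem_hull_iff S _).2 ⟨c, hc, rfl⟩, ?_⟩
    rw [add_sub_cancel_left]
    exact Submodule.sum_mem _ fun j _ => Submodule.smul_mem _ _ (Submodule.subset_span ⟨j, rfl⟩)

/-- `cone S + span Δ` is a rational polyhedral cone. -/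
lemma sum_cone (S : Finset (Fin n → ℚ)) (Δ : Fin k → Fin n → ℚ) :
    ∃ S₀ : Finset (Fin n → ℚ), ∀ x : Fin n → ℝ,
      x ∈ PointedCone.hull ℝ (ratVec '' (S₀ : Set (Fin n → ℚ))) ↔
        ∃ y ∈ ratCone S, x - y ∈ bspan Δ := by
  classical
  set S₀ : Finset (Fin n → ℚ) := S ∪ (Finset.univ.image Δ ∪ Finset.univ.image (fun j => -Δ j))
    with hS₀
  refine ⟨S₀, fun x => ⟨fun hx => ?_, fun hx => ?_⟩⟩
  · induction hx using Submodule.span_induction with
    | mem y hy =>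
      obtain ⟨v, hv, rfl⟩ := hy
      rcases Finset.mem_union.1 (Finset.mem_coe.1 hv) with h | h
      · exact ⟨ratVec v, Submodule.subset_span ⟨v, h, rfl⟩, by simp⟩
      · refine ⟨0, Submodule.zero_mem _, ?_⟩
        rw [sub_zero]
        rcases Finset.mem_union.1 h with h | h
        · obtain ⟨j, _, rfl⟩ := Finset.mem_image.1 h
          exact Submodule.subset_span ⟨j, rfl⟩
        · obtain ⟨j, _, rfl⟩ := Finset.mem_image.1 h
          have e : ratVec (-Δ j) = -ratVec (Δ j) := by funext i; simp [ratVec]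
          rw [e]
          exact Submodule.neg_mem _ (Submodule.subset_span ⟨j, rfl⟩)
    | zero => exact ⟨0, Submodule.zero_mem _, by simp⟩
    | add y z _ _ hy hz =>
      obtain ⟨y', hy1, hy2⟩ := hy
      obtain ⟨z', hz1, hz2⟩ := hz
      refine ⟨y' + z', Submodule.add_mem _ hy1 hz1, ?_⟩
      have e : y + z - (y' + z') = (y - y') + (z - z') := by abel
      rw [e]
      exact Submodule.add_mem _ hy2 hz2
    | smul a y _ hy =>
      obtain ⟨y', hy1, hy2⟩ := hy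
      refine ⟨(a : ℝ) • y', PointedCone.smul_mem _ a.2 hy1, ?_⟩
      have e : a • y - (a : ℝ) • y' = (a : ℝ) • (y - y') := by
        rw [smul_sub]; rfl
      rw [e]
      exact Submodule.smul_mem _ _ hy2
  · obtain ⟨c, b, hc, rfl⟩ := (mem_sum_iff S Δ x).1 hx
    refine Submodule.add_mem _ (Submodule.sum_mem _ fun s hs => PointedCone.smul_mem _ (hc s)
      (Submodule.subset_span ⟨s, Finset.mem_coe.2 (Finset.mem_union_left _ hs), rfl⟩))
      (Submodule.sum_mem _ fun j _ => ?_)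
    rcases le_or_gt 0 (b j) with h | h
    · exact PointedCone.smul_mem _ h (Submodule.subset_span ⟨Δ j, Finset.mem_coe.2
        (Finset.mem_union_right _ (Finset.mem_union_left _
          (Finset.mem_image_of_mem _ (Finset.mem_univ _)))), rfl⟩)
    · have e : b j • ratVec (Δ j) = (-b j) • ratVec (-Δ j) := by
        have e : ratVec (-Δ j) = -ratVec (Δ j) := by funext i; simp [ratVec]
        rw [e]; module
      rw [e]
      exact PointedCone.smul_mem _ (by linarith) (Submodule.subset_span ⟨-Δ j, Finset.mem_coe.2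
        (Finset.mem_union_right _ (Finset.mem_union_right _
          (Finset.mem_image_of_mem _ (Finset.mem_univ _)))), rfl⟩)

/-- Over a rational polyhedral cone spanned by nef classes, the nef cone is rational
polyhedral modulo the span of the boundary classes. -/
theorem step (Nef : PointedCone ℝ (Fin n → ℝ)) (Δ : Fin k → Fin n → ℚ)
    (hcone : ConeThm (Nef : Set (Fin n → ℝ)) Δ) (S : Finset (Fin n → ℚ))
    (hS : ∀ v ∈ S, ratVec v ∈ Nef) :
    ∃ S' : Finset (Fin n → ℚ), ∀ x : Fin n → ℝ,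
      x ∈ PointedCone.hull ℝ (ratVec '' (S' : Set (Fin n → ℚ))) ↔
        x ∈ Nef ∧ ∃ y ∈ ratCone S, x - y ∈ bspan Δ := by
  classical
  obtain ⟨C, Θ, B, hB, hΘ, hNef⟩ := hcone
  have hmem : ∀ y, y ∈ Nef ↔ (∀ c ∈ C, 0 ≤ intVec c ⬝ᵥ y) ∧ ∀ θ ∈ Θ, 0 ≤ θ ⬝ᵥ y := by
    intro y
    have h1 : y ∈ Nef ↔ y ∈ (Nef : Set (Fin n → ℝ)) := Iff.rfl
    rw [h1, hNef]
    rfl
  obtain ⟨N, hN, w, hw⟩ := exists_den (fun s : {s // s ∈ S} => s.1)
  obtain ⟨N', hN', w', hw'⟩ := exists_den Δ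
  have hNR : (0 : ℝ) < N := by exact_mod_cast hN
  have hNR' : (0 : ℝ) < N' := by exact_mod_cast hN'
  -- integral values
  have hval : ∀ (c : Fin n → ℤ) (s : {s // s ∈ S}),
      (N : ℝ) * (intVec c ⬝ᵥ ratVec s.1) = ((c ⬝ᵥ w s : ℤ) : ℝ) := by
    intro c s
    simp only [dotProduct, intVec, ratVec, Int.cast_sum, Int.cast_mul, Finset.mul_sum]
    refine Finset.sum_congr rfl fun i _ => ?_
    have h1 := hw s i
    have h2 : (N : ℝ) * (s.1 i : ℝ) = (w s i : ℝ) := by exact_mod_cast congrArg (fun q : ℚ => (q : ℝ)) h1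
    rw [← h2]; ring
  have hval' : ∀ (c : Fin n → ℤ) (j : Fin k),
      (N' : ℝ) * (intVec c ⬝ᵥ ratVec (Δ j)) = ((c ⬝ᵥ w' j : ℤ) : ℝ) := by
    intro c j
    simp only [dotProduct, intVec, ratVec, Int.cast_sum, Int.cast_mul, Finset.mul_sum]
    refine Finset.sum_congr rfl fun i _ => ?_
    have h1 := hw' j i
    have h2 : (N' : ℝ) * (Δ j i : ℝ) = (w' j i : ℝ) := by exact_mod_cast congrArg (fun q : ℚ => (q : ℝ)) h1
    rw [← h2]; ring
  -- a bound
  obtain ⟨M, hM⟩ := exists_nat_ge ((N' : ℝ) * B)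
  have hbd : ∀ c ∈ C, ∀ j, |c ⬝ᵥ w' j| ≤ (M : ℤ) := by
    intro c hc j
    have h1 : (|c ⬝ᵥ w' j| : ℤ) ≤ ((M : ℤ) : ℝ) := by
      rw [Int.cast_abs, ← hval', abs_mul, abs_of_pos hNR']
      refine le_trans (mul_le_mul_of_nonneg_left (hB c hc j) hNR'.le) ?_
      exact_mod_cast hM
    exact_mod_cast h1
  have hnn : ∀ c ∈ C, ∀ s : {s // s ∈ S}, 0 ≤ c ⬝ᵥ w s := by
    intro c hc s
    have h1 : (0 : ℝ) ≤ ((c ⬝ᵥ w s : ℤ) : ℝ) := by
      rw [← hval]
      exact mul_nonneg hNR.le (((hmem _).1 (hS s.1 s.2)).1 c hc)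
    exact_mod_cast h1
  obtain ⟨T, hTC, hT⟩ := dickson (ι := {s // s ∈ S} ⊕ (Fin k ⊕ Fin k))
    (fun (c : Fin n → ℤ) i => match i with
      | Sum.inl s => (c ⬝ᵥ w s).toNat
      | Sum.inr (Sum.inl j) => ((M : ℤ) + c ⬝ᵥ w' j).toNat
      | Sum.inr (Sum.inr j) => ((M : ℤ) - c ⬝ᵥ w' j).toNat) C
  obtain ⟨S₀, hS₀⟩ := sum_cone S Δ
  obtain ⟨S', hS'⟩ := mw_list S₀ (T.toList.map (fun c : Fin n → ℤ => fun i => (c i : ℚ)))
  refine ⟨S', fun x => ?_⟩
  rw [hS' x, hS₀ x]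
  have hrat : ∀ c : Fin n → ℤ, ratVec (fun i => (c i : ℚ)) = intVec c := by
    intro c; funext i; simp [ratVec, intVec]
  constructor
  · rintro ⟨hx, hL⟩
    have hL' : ∀ c ∈ T, 0 ≤ intVec c ⬝ᵥ x := by
      intro c hc
      have := hL (fun i => (c i : ℚ)) (List.mem_map.2 ⟨c, Finset.mem_toList.2 hc, rfl⟩)
      rwa [hrat] at this
    refine ⟨?_, hx⟩
    obtain ⟨a, b, ha, rfl⟩ := (mem_sum_iff S Δ x).1 hx
    have hexp : ∀ θ : Fin n → ℝ, θ ⬝ᵥ (∑ s ∈ S, a s • ratVec s + ∑ j, b j • ratVec (Δ j)) =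
        ∑ s ∈ S, a s * (θ ⬝ᵥ ratVec s) + ∑ j, b j * (θ ⬝ᵥ ratVec (Δ j)) := by
      intro θ
      rw [dotProduct_add, dotProduct_sum, dotProduct_sum]
      simp only [dotProduct_smul, smul_eq_mul]
    rw [hmem]
    refine ⟨fun c hc => ?_, fun θ hθ => ?_⟩
    · obtain ⟨c', hc', hle⟩ := hT c hc
      have hc'C : c' ∈ C := hTC (Finset.mem_coe.2 hc')
      refine le_trans (hL' c' hc') ?_
      rw [hexp, hexp]
      refine add_le_add (Finset.sum_le_sum fun s hs => ?_) (le_of_eq ?_)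
      · refine mul_le_mul_of_nonneg_left ?_ (ha s)
        have h1 := hle (Sum.inl ⟨s, hs⟩)
        simp only at h1
        have h2 : c' ⬝ᵥ w ⟨s, hs⟩ ≤ c ⬝ᵥ w ⟨s, hs⟩ := by
          have h3 := hnn c' hc'C ⟨s, hs⟩
          have h4 := hnn c hc ⟨s, hs⟩
          omega
        have h3 : ((c' ⬝ᵥ w ⟨s, hs⟩ : ℤ) : ℝ) ≤ ((c ⬝ᵥ w ⟨s, hs⟩ : ℤ) : ℝ) := by exact_mod_cast h2
        rw [← hval, ← hval] at h3
        exact le_of_mul_le_mul_left h3 hNR
      · refine Finset.sum_congr rfl fun j _ => ?_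
        congr 1
        have h1 := hle (Sum.inr (Sum.inl j))
        have h2 := hle (Sum.inr (Sum.inr j))
        simp only at h1 h2
        have h3 := abs_le.1 (hbd c hc j)
        have h4 := abs_le.1 (hbd c' hc'C j)
        have h5 : c' ⬝ᵥ w' j = c ⬝ᵥ w' j := by omega
        have h6 : ((c' ⬝ᵥ w' j : ℤ) : ℝ) = ((c ⬝ᵥ w' j : ℤ) : ℝ) := by rw [h5]
        rw [← hval', ← hval'] at h6
        exact mul_left_cancel₀ hNR'.ne' h6
    · rw [hexp]
      refine add_nonneg (Finset.sum_nonneg fun s hs => mul_nonneg (ha s) ?_) (le_of_eq ?_)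
      · exact ((hmem _).1 (hS s hs)).2 θ hθ
      · rw [eq_comm]
        exact Finset.sum_eq_zero fun j _ => by rw [hΘ θ hθ j, mul_zero]
  · rintro ⟨hxN, hx⟩
    refine ⟨hx, fun q hq => ?_⟩
    obtain ⟨c, hc, rfl⟩ := List.mem_map.1 hq
    rw [hrat]
    exact ((hmem x).1 hxN).1 c (hTC (Finset.mem_coe.2 (Finset.mem_toList.1 hc)))

end Pool.Agent.H68Cone
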